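import Mathlib

/-!
# Countable closed fields
-/

set_option autoImplicit false

open Set

noncomputable section

namespace Pool.Agent.Y776

theorem countable_closure {s : Set ℂ} (hs : s.Countable) :
    (Subfield.closure s : Set ℂ).Countable := by
  have h1 : Cardinal.mk (Subfield.closure s) ≤ Cardinal.aleph0 := by
    refine (Subfield.cardinalMk_closure_le_max s).trans (max_le ?_ le_rfl)
    exact Cardinal.mk_le_aleph0_iff.2 hs.to_subtype
  have h2 : Countable (Subfield.closure s) := Cardinal.mk_le_aleph0_iff.1 h1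
  exact Set.to_countable _

/-- a countable field which is closed under an operation `T` and algebraically closed, as the union
of a chain -/
theorem exists_chain (T : Subfield ℂ → Set ℂ)
    (hT : ∀ k : Subfield ℂ, (k : Set ℂ).Countable → (T k).Countable) {S₀ : Set ℂ}
    (hS : S₀.Countable) :
    ∃ (K : ℕ → Subfield ℂ) (F : Subfield ℂ), Monotone K ∧ (∀ x, x ∈ F ↔ ∃ i, x ∈ K i) ∧
      (F : Set ℂ).Countable ∧ S₀ ⊆ F ∧ (∀ i, T (K i) ⊆ F) ∧
      (∀ x, IsAlgebraic F x → x ∈ F) := by
  classical
  let step : Subfield ℂ → Subfield ℂ := fun k =>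
    Subfield.closure ((k : Set ℂ) ∪ (T k ∪ {x | IsAlgebraic k x}))
  let K : ℕ → Subfield ℂ := fun i => step^[i] (Subfield.closure S₀)
  have hK0 : K 0 = Subfield.closure S₀ := rfl
  have hKs : ∀ i, K (i + 1) = step (K i) := fun i => Function.iterate_succ_apply' _ _ _
  have hc : ∀ i, (K i : Set ℂ).Countable := by
    intro i
    induction i with
    | zero => rw [hK0]; exact countable_closure hS
    | succ i ih =>
      rw [hKs]
      apply countable_closure
      refine ih.union ((hT _ ih).union ?_)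
      have : Countable (K i) := ih.to_subtype
      exact Algebraic.countable (K i) ℂ
  have hmono : Monotone K := by
    refine monotone_nat_of_le_succ (fun i => ?_)
    intro x hx
    rw [hKs]
    exact Subfield.subset_closure (Or.inl hx)
  have hF : ∀ x, x ∈ (⨆ i, K i : Subfield ℂ) ↔ ∃ i, x ∈ K i := fun x =>
    Subfield.mem_iSup_of_directed hmono.directed_le
  refine ⟨K, ⨆ i, K i, hmono, hF, ?_, ?_, ?_, ?_⟩
  · have : ((⨆ i, K i : Subfield ℂ) : Set ℂ) = ⋃ i, (K i : Set ℂ) := by
      ext x
      rw [Set.mem_iUnion]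
      exact hF x
    rw [this]
    exact Set.countable_iUnion hc
  · intro x hx
    exact (hF x).2 ⟨0, by rw [hK0]; exact Subfield.subset_closure hx⟩
  · intro i x hx
    exact (hF x).2 ⟨i + 1, by rw [hKs]; exact Subfield.subset_closure (Or.inr (Or.inl hx))⟩
  · intro x hx
    obtain ⟨p, hp0, hp⟩ := hx
    -- the coefficients lie in some `K i`
    obtain ⟨i, hi⟩ : ∃ i, ∀ m, (p.coeff m : ℂ) ∈ K i := by
      have h3 : ∀ m, ∃ i, (p.coeff m : ℂ) ∈ K i := fun m => (hF _).1 (p.coeff m).2
      choose f hf using h3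
      refine ⟨(Finset.range (p.natDegree + 1)).sup f, fun m => ?_⟩
      by_cases hm : m ≤ p.natDegree
      · exact hmono (Finset.le_sup (Finset.mem_range.2 (Nat.lt_succ_of_le hm))) (hf m)
      · rw [Polynomial.coeff_eq_zero_of_natDegree_lt (not_le.1 hm)]
        exact zero_mem _
    refine (hF x).2 ⟨i + 1, ?_⟩
    rw [hKs]
    refine Subfield.subset_closure (Or.inr (Or.inr ?_))
    -- the polynomial over `K i`
    let P : Polynomial ℂ := p.map (algebraMap (⨆ i, K i : Subfield ℂ) ℂ)
    have hP : P ∈ Polynomial.lifts (algebraMap (K i) ℂ) := by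
      rw [Polynomial.lifts_iff_coeff_lifts]
      intro m
      refine ⟨⟨_, hi m⟩, ?_⟩
      rw [Polynomial.coeff_map]
      rfl
    obtain ⟨q, hq⟩ := (Polynomial.mem_lifts _).1 hP
    refine ⟨q, ?_, ?_⟩
    · rintro rfl
      rw [Polynomial.map_zero] at hq
      apply hp0
      have h4 : p.map (algebraMap (⨆ i, K i : Subfield ℂ) ℂ) = 0 := hq.symm
      exact (Polynomial.map_eq_zero _).1 h4
    · have h5 : Polynomial.eval x P = 0 := by
        change Polynomial.eval x (p.map (algebraMap (⨆ i, K i : Subfield ℂ) ℂ)) = 0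
        rw [Polynomial.eval_map_algebraMap]
        exact hp
      rw [← hq, Polynomial.eval_map_algebraMap] at h5
      exact h5

/-- a generic element of a space of vectors -/
theorem exists_generic {V : Type} [AddCommGroup V] [Module ℂ V] {ι : Type} [Fintype ι]
    (ev : V →ₗ[ℂ] (ι → ℂ)) {S : Set (ι → ℂ)} (hS : S.Countable)
    (h : ∀ q ∈ S, ∃ D : V, ∑ j, q j * ev D j ≠ 0) :
    ∃ D : V, ∀ q ∈ S, ∑ j, q j * ev D j ≠ 0 := by
  classical
  let W := LinearMap.range ev
  let b := Module.finBasis ℂ W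
  have hb : ∀ k, ∃ D : V, ev D = (b k : ι → ℂ) := fun k => (b k).2
  choose Dk hDk using hb
  let φ : (ι → ℂ) → (ι → ℂ) →ₗ[ℂ] ℂ := fun q =>
    { toFun := fun w => ∑ j, q j * w j
      map_add' := fun v w => by
        rw [← Finset.sum_add_distrib]
        exact Finset.sum_congr rfl (fun j _ => by rw [Pi.add_apply]; ring)
      map_smul' := fun c v => by
        rw [RingHom.id_apply, smul_eq_mul, Finset.mul_sum]
        exact Finset.sum_congr rfl (fun j _ => by rw [Pi.smul_apply, smul_eq_mul]; ring) }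
  let p : (ι → ℂ) → Polynomial ℂ := fun q =>
    ∑ k, Polynomial.C (φ q (b k)) * Polynomial.X ^ (k : ℕ)
  have hp : ∀ q ∈ S, p q ≠ 0 := by
    intro q hq h0
    obtain ⟨D, hD⟩ := h q hq
    apply hD
    have h1 : ∀ k, φ q (b k) = 0 := by
      intro k
      have h2 := congrArg (fun P : Polynomial ℂ => P.coeff k) h0
      simp only [p, Polynomial.finsetSum_coeff, Polynomial.coeff_C_mul, Polynomial.coeff_X_pow,
        Polynomial.coeff_zero] at h2
      rw [Finset.sum_eq_single k] at h2
      · simpa using h2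
      · intro j _ hj
        rw [if_neg, mul_zero]
        intro hkj
        exact hj (Fin.ext hkj.symm)
      · intro hk
        exact absurd (Finset.mem_univ k) hk
    have h2 : φ q (ev D) = 0 := by
      have h3 : (⟨ev D, D, rfl⟩ : W) = ∑ k, b.repr ⟨ev D, D, rfl⟩ k • b k :=
        (b.sum_repr _).symm
      have h4 : ev D = ∑ k, b.repr ⟨ev D, D, rfl⟩ k • (b k : ι → ℂ) := by
        have := congrArg (Submodule.subtype W) h3
        rw [map_sum] at this
        simpa using this
      rw [h4, map_sum]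
      exact Finset.sum_eq_zero (fun k _ => by rw [map_smul, h1, smul_zero])
    exact h2
  have hcount : (⋃ q ∈ S, {x : ℂ | (p q).IsRoot x}).Countable := by
    refine hS.biUnion (fun q hq => ?_)
    exact (Polynomial.finite_setOfPred_isRoot (hp q hq)).countable
  obtain ⟨x, hx⟩ : ∃ x : ℂ, x ∉ ⋃ q ∈ S, {x : ℂ | (p q).IsRoot x} := by
    by_contra hcon
    push Not at hcon
    have h1 : (⋃ q ∈ S, {x : ℂ | (p q).IsRoot x}) = Set.univ := Set.eq_univ_of_forall hcon
    rw [h1] at hcount
    exact not_countable_complex hcount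
  refine ⟨∑ k : Fin (Module.finrank ℂ W), x ^ (k : ℕ) • Dk k, fun q hq h0 => ?_⟩
  apply hx
  refine Set.mem_iUnion₂.2 ⟨q, hq, ?_⟩
  change Polynomial.eval x (p q) = 0
  have h1 : φ q (ev (∑ k : Fin (Module.finrank ℂ W), x ^ (k : ℕ) • Dk k)) = 0 := h0
  rw [map_sum, map_sum] at h1
  simp only [p, Polynomial.eval_finsetSum, Polynomial.eval_mul, Polynomial.eval_C,
    Polynomial.eval_pow, Polynomial.eval_X]
  rw [← h1]
  refine Finset.sum_congr rfl (fun k _ => ?_)
  rw [map_smul, map_smul, hDk, smul_eq_mul, mul_comm]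

end Pool.Agent.Y776
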