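import Mathlib
import Pool.Agent.Y119.CB.Main

/-!
# Systems of functions: directions in which a point can be moved
-/

set_option autoImplicit false

open MvPolynomial Matrix Filter Set
open scoped Topology

noncomputable section

namespace Pool.Agent.Y776

open Pool.Agent.Y119.CB

variable {n : ℕ} {σ : Type} [Fintype σ]

/-- the gradient of a polynomial over `K` at a point -/
def grC (P : Fin n → σ → MvPolynomial σ ℚ) (y : σ → ℂ) (K : Subfield ℂ) (H : MvPolynomial σ K) :
    Fin n → ℂ := fun j => ∑ s, aeval y (pderiv s H) * aeval y (P j s)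

/-- the gradients of the relations over `K` -/
def Grad (P : Fin n → σ → MvPolynomial σ ℚ) (K : Subfield ℂ) (y : σ → ℂ) : Set (Fin n → ℂ) :=
  {g | ∃ H : MvPolynomial σ K, aeval y H = 0 ∧ g = grC P y K H}

/-- no relation over `K` forces the coordinate `j₀` to be constant -/
def Good (P : Fin n → σ → MvPolynomial σ ℚ) (K : Subfield ℂ) (y : σ → ℂ) (j₀ : Fin n) : Prop :=
  Pi.single j₀ (1 : ℂ) ∉ Submodule.span ℂ (Grad P K y)

/-- the polynomials over `K` -/
def Pk (P : Fin n → σ → MvPolynomial σ ℚ) (K : Subfield ℂ) : Fin n → σ → MvPolynomial σ K :=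
  fun j s => MvPolynomial.map (algebraMap ℚ K) (P j s)

omit [Fintype σ] in
theorem aeval_Pk (P : Fin n → σ → MvPolynomial σ ℚ) (K : Subfield ℂ) (y : σ → ℂ) (j : Fin n)
    (s : σ) : aeval y (Pk P K j s) = aeval y (P j s) := by
  unfold Pk
  rw [aeval_map_algebraMap]

theorem gr_eq (P : Fin n → σ → MvPolynomial σ ℚ) (K : Subfield ℂ) (y : σ → ℂ)
    (H : MvPolynomial σ K) : gr (Pk P K) y H = grC P y K H := by
  funext j
  unfold gr grC
  rw [dd_eq, map_sum]
  exact Finset.sum_congr rfl (fun s _ => by rw [map_mul, aeval_Pk])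

theorem good_der {P : Fin n → σ → MvPolynomial σ ℚ} {K : Subfield ℂ} {y : σ → ℂ} {j₀ : Fin n}
    (h : Good P K y j₀) : ∃ (D : Derivation ℚ ℂ ℂ) (v : Fin n → ℂ), (∀ c ∈ K, D c = 0) ∧
      v j₀ = 1 ∧ ∀ s, D (y s) = ∑ j, v j * aeval y (P j s) := by
  classical
  obtain ⟨f, hf1, hf2⟩ := Submodule.exists_le_ker_of_notMem h
  let v : Fin n → ℂ := fun j => f (Pi.single j 1) / f (Pi.single j₀ 1)
  have hv : ∀ g : Fin n → ℂ, ∑ j, v j * g j = f g / f (Pi.single j₀ 1) := by
    intro g
    have h1 : g = ∑ j, g j • (Pi.single j (1 : ℂ) : Fin n → ℂ) := by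
      funext i'
      simp [Finset.sum_apply, Pi.single_apply]
    conv_rhs => rw [h1, map_sum, Finset.sum_div]
    refine Finset.sum_congr rfl fun j _ => ?_
    rw [map_smul, smul_eq_mul]
    simp only [v]
    ring
  obtain ⟨D, hD⟩ := exists_derivation (k := K) y
    (fun s => ∑ j, v j * aeval y (P j s)) (by
      intro H hH
      have h1 : f (grC P y K H) = 0 := hf2 (Submodule.subset_span ⟨H, hH, rfl⟩)
      have h2 := hv (grC P y K H)
      rw [h1, zero_div] at h2
      rw [← h2]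
      simp only [grC, Finset.mul_sum]
      rw [Finset.sum_comm]
      exact Finset.sum_congr rfl fun j _ => Finset.sum_congr rfl fun s _ => by ring)
  refine ⟨D.restrictScalars ℚ, v, ?_, ?_, ?_⟩
  · intro c hc
    exact D.map_algebraMap ⟨c, hc⟩
  · simp only [v]
    exact div_self hf1
  · intro s
    exact hD s

/-- the coordinates of the exceptional points form a countable set -/
theorem countable_bad (P : Fin n → σ → MvPolynomial σ ℚ) {K : Subfield ℂ}
    (hk : (K : Set ℂ).Countable) {U : Set (Fin n → ℂ)} (hU : IsOpen U)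
    {Φ : (Fin n → ℂ) → σ → ℂ}
    (hΦ : ∀ x ∈ U, ∀ s, HasFDerivAt (fun y => Φ y s) (∑ j, (aeval (Φ x) (P j s)) •
      (ContinuousLinearMap.proj j : (Fin n → ℂ) →L[ℂ] ℂ)) x)
    {j₀ : Fin n} {s₀ : σ} (hs₀ : ∀ x, Φ x s₀ = x j₀) :
    {c : ℂ | ∃ a ∈ U, a j₀ = c ∧ ¬ Good P K (Φ a) j₀}.Countable := by
  classical
  have hkc : Countable K := hk.to_subtype
  have hRc : Countable (MvPolynomial σ K) := by
    rw [← Cardinal.mk_le_aleph0_iff]
    refine MvPolynomial.cardinalMk_le_max.trans ?_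
    exact max_le (max_le (Cardinal.mk_le_aleph0_iff.2 hkc)
      (Cardinal.mk_le_aleph0_iff.2 inferInstance)) le_rfl
  have hH : HypF (Pk P K) Φ U := by
    intro x hx s
    have h1 : (∑ j, (aeval (Φ x) (Pk P K j s)) •
        (ContinuousLinearMap.proj j : (Fin n → ℂ) →L[ℂ] ℂ)) = ∑ j, (aeval (Φ x) (P j s)) •
        (ContinuousLinearMap.proj j : (Fin n → ℂ) →L[ℂ] ℂ) :=
      Finset.sum_congr rfl (fun j _ => by rw [aeval_Pk])
    rw [h1]
    exact hΦ x hx s
  let B : (Σ r : ℕ, (Fin r → MvPolynomial σ K) × (Fin r → Fin n)) → Set (Fin n → ℂ) :=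
    fun d => {a | a ∈ U ∧ aeval (Φ a) (hh (Pk P K) d.2.1 d.2.2) ≠ 0 ∧
      (∀ i, aeval (Φ a) (d.2.1 i) = 0) ∧
      (∀ H : MvPolynomial σ K, aeval (Φ a) H = 0 → gr (Pk P K) (Φ a) H ∈
        Submodule.span ℂ (Set.range fun i => gr (Pk P K) (Φ a) (d.2.1 i))) ∧
      Pi.single j₀ (1 : ℂ) ∈
        Submodule.span ℂ (Set.range fun i => gr (Pk P K) (Φ a) (d.2.1 i))}
  have hB : ∀ d, ((fun a : Fin n → ℂ => a j₀) '' B d).Countable := by
    intro d
    have h1 : ∀ a ∈ B d, ∃ O ∈ 𝓝 a, ∀ b ∈ O, (∀ i, aeval (Φ b) (d.2.1 i) = 0) →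
        b j₀ = a j₀ := by
      rintro a ⟨h2, h3, h4, h5, h6⟩
      exact locally_const hU hH h2 j₀ hs₀ h3 h4 h5 h6
    choose! O hO hO' using h1
    obtain ⟨t, hts, htc, ht⟩ := TopologicalSpace.countable_cover_nhdsWithin
      (f := O) (s := B d) fun x hx => mem_nhdsWithin_of_mem_nhds (hO x hx)
    refine (htc.image fun a : Fin n → ℂ => a j₀).mono ?_
    rintro _ ⟨b, hb, rfl⟩
    obtain ⟨x, hx, hbx⟩ := mem_iUnion₂.1 (ht hb)
    exact ⟨x, hx, (hO' x (hts hx) b hbx hb.2.2.1).symm⟩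
  refine (Set.countable_iUnion hB).mono ?_
  rintro _ ⟨a, ha, rfl, hG⟩
  unfold Good at hG
  rw [not_not] at hG
  -- the span of the gradients
  obtain ⟨f, hf1, hf2, hf3⟩ := Submodule.exists_fun_fin_finrank_span_eq ℂ (Grad P K (Φ a))
  choose F hF1 hF2 using hf1
  obtain ⟨J, hJ⟩ := exists_minor f hf3
  have hf : f = fun i => gr (Pk P K) (Φ a) (F i) := funext fun i => by
    rw [hF2 i, gr_eq]
  refine mem_iUnion.2 ⟨⟨_, F, J⟩, a, ⟨ha, ?_, hF1, ?_, ?_⟩, rfl⟩
  · change aeval (Φ a) (AJ (Pk P K) F J).det ≠ 0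
    have h1 : aeval (Φ a) (AJ (Pk P K) F J).det =
        (Matrix.of fun i i' => f i (J i')).det := by
      have h2 := RingHom.map_det (aeval (Φ a) : MvPolynomial σ K →ₐ[K] ℂ).toRingHom
        (AJ (Pk P K) F J)
      refine h2.trans ?_
      congr 1
      ext i i'
      rw [hf]
      rfl
    rw [h1]
    exact hJ
  · intro H hH
    change gr (Pk P K) (Φ a) H ∈ Submodule.span ℂ (Set.range fun i => gr (Pk P K) (Φ a) (F i))
    rw [← hf, hf2]
    exact Submodule.subset_span ⟨H, hH, gr_eq _ _ _ _⟩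
  · change Pi.single j₀ (1 : ℂ) ∈
      Submodule.span ℂ (Set.range fun i => gr (Pk P K) (Φ a) (F i))
    rw [← hf, hf2]
    exact hG

/-- a union of a chain of fields -/
theorem good_union {P : Fin n → σ → MvPolynomial σ ℚ} {y : σ → ℂ} {j₀ : Fin n}
    {K : ℕ → Subfield ℂ} (hK : Monotone K) {F : Subfield ℂ} (hF : ∀ x ∈ F, ∃ i, x ∈ K i)
    (h : ∀ i, Good P (K i) y j₀) : Good P F y j₀ := by
  classical
  intro hmem
  have h1 : Grad P F y ⊆ ⋃ i, Grad P (K i) y := by
    rintro g ⟨H, hH, rfl⟩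
    -- the coefficients lie in some `K i`
    have h2 : ∃ i, ∀ c ∈ H.support.image (fun e => ((H.coeff e : F) : ℂ)), c ∈ K i := by
      have h3 : ∀ c ∈ H.support.image (fun e => ((H.coeff e : F) : ℂ)), ∃ i, c ∈ K i := by
        intro c hc
        obtain ⟨e, -, rfl⟩ := Finset.mem_image.1 hc
        exact hF _ (H.coeff e).2
      choose! f hf using h3
      refine ⟨(H.support.image (fun e => ((H.coeff e : F) : ℂ))).sup f, fun c hc => ?_⟩
      exact hK (Finset.le_sup hc) (hf c hc)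
    obtain ⟨i, hi⟩ := h2
    obtain ⟨H', hH'⟩ : ∃ H' : MvPolynomial σ (K i),
        MvPolynomial.map (algebraMap (K i) ℂ) H' = MvPolynomial.map (algebraMap F ℂ) H := by
      have h3 : MvPolynomial.map (algebraMap F ℂ) H ∈
          Set.range (MvPolynomial.map (σ := σ) (algebraMap (K i) ℂ)) := by
        rw [MvPolynomial.mem_range_map_iff_coeffs_subset]
        intro c hc
        obtain ⟨e, he, rfl⟩ := MvPolynomial.mem_coeffs_iff.1 (Finset.mem_coe.1 hc)
        rw [MvPolynomial.coeff_map]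
        have h4 : e ∈ H.support := by
          rw [MvPolynomial.mem_support_iff] at he ⊢
          intro h0
          apply he
          rw [MvPolynomial.coeff_map, h0, map_zero]
        exact ⟨⟨_, hi _ (Finset.mem_image.2 ⟨e, h4, rfl⟩)⟩, rfl⟩
      exact h3
    have key : ∀ Q Q' : MvPolynomial σ ℂ, Q = Q' → aeval y Q = aeval y Q' := fun _ _ h => by
      rw [h]
    have e1 : ∀ s, aeval y (pderiv s H') = aeval y (pderiv s H) := by
      intro s
      have e2 : aeval y (MvPolynomial.map (algebraMap (K i) ℂ) (pderiv s H')) =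
          aeval y (MvPolynomial.map (algebraMap F ℂ) (pderiv s H)) := by
        rw [← pderiv_map, ← pderiv_map, hH']
      rw [aeval_map_algebraMap, aeval_map_algebraMap] at e2
      exact e2
    refine Set.mem_iUnion.2 ⟨i, H', ?_, ?_⟩
    · have e2 : aeval y (MvPolynomial.map (algebraMap (K i) ℂ) H') =
          aeval y (MvPolynomial.map (algebraMap F ℂ) H) := by
        rw [hH']
      rw [aeval_map_algebraMap, aeval_map_algebraMap] at e2
      rw [e2, hH]
    · funext j
      unfold grC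
      exact Finset.sum_congr rfl (fun s _ => by rw [e1])
  have hmono : Monotone (fun i => Submodule.span ℂ (Grad P (K i) y)) := by
    intro i j hij
    apply Submodule.span_mono
    rintro g ⟨H, hH, rfl⟩
    let f : K i →+* K j := Subfield.inclusion (hK hij)
    have ha : ∀ Q : MvPolynomial σ (K i), aeval y (MvPolynomial.map f Q) = aeval y Q := by
      intro Q
      rw [aeval_def, aeval_def, eval₂_map]
      rfl
    refine ⟨MvPolynomial.map f H, ?_, ?_⟩
    · rw [ha, hH]
    · funext l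
      unfold grC
      refine Finset.sum_congr rfl (fun s _ => ?_)
      rw [pderiv_map, ha]
  have h2 := Submodule.span_mono h1 hmem
  rw [Submodule.span_iUnion] at h2
  obtain ⟨i, hi⟩ := (Submodule.mem_iSup_of_directed _ hmono.directed_le).1 h2
  exact h i hi

end Pool.Agent.Y776
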