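import Mathlib
import Pool.Agent.Y685.StepG

/-!
# Exponentials: the first two steps
-/

set_option autoImplicit false

open Finset Module
open scoped Topology PeriodPair

noncomputable section

namespace Pool.Agent.Y776

open H667R3 Pool.Agent.W245.EB Pool.Agent.TH813.Ell Pool.Agent.Y685
open Pool.Agent.TH813.Rel (DF MK)

variable {L : PeriodPair} {D δ : Derivation ℚ ℂ ℂ}

/-- the logarithmic derivative of the exponential of a number -/
def lg (δ : Derivation ℚ ℂ ℂ) (t : ℂ) : ℂ := δ (Complex.exp t) / Complex.exp t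

theorem lg_add (δ : Derivation ℚ ℂ ℂ) (t u : ℂ) : lg δ (t + u) = lg δ t + lg δ u := by
  have h1 := Complex.exp_ne_zero t
  have h2 := Complex.exp_ne_zero u
  unfold lg
  rw [Complex.exp_add, D_mul]
  field_simp
  ring

/-- `lg` as a linear map -/
def lgL (δ : Derivation ℚ ℂ ℂ) : ℂ →ₗ[ℚ] ℂ :=
  (AddMonoidHom.mk' (lg δ) (lg_add δ)).toRatLinearMap

theorem lgL_apply (δ : Derivation ℚ ℂ ℂ) (t : ℂ) : lgL δ t = lg δ t := rfl

theorem lg_lin (δ : Derivation ℚ ℂ ℂ) {ι : Type} [Fintype ι] (q : ι → ℚ) (t : ι → ℂ) :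
    lg δ (∑ j, q j • t j) = ∑ j, (q j : ℂ) * lg δ (t j) := by
  rw [← lgL_apply, map_sum]
  refine sum_congr rfl (fun j _ => ?_)
  rw [map_smul, lgL_apply, Rat.smul_def]

theorem lg_add_der (δ δ' : Derivation ℚ ℂ ℂ) (t : ℂ) : lg (δ + δ') t = lg δ t + lg δ' t := by
  unfold lg
  rw [Derivation.add_apply, add_div]

theorem lg_smul_der (c : ℂ) (δ : Derivation ℚ ℂ ℂ) (t : ℂ) : lg (c • δ) t = c * lg δ t := by
  unfold lg
  rw [Derivation.smul_apply, smul_eq_mul, mul_div_assoc]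

/-- the derivation of a number minus the logarithmic derivative of its exponential -/
def Tf (δ : Derivation ℚ ℂ ℂ) (t : ℂ) : ℂ := δ t - lg δ t

theorem Tf_add (δ : Derivation ℚ ℂ ℂ) (t u : ℂ) : Tf δ (t + u) = Tf δ t + Tf δ u := by
  unfold Tf
  rw [map_add, lg_add]
  ring

/-- `Tf` as a linear map -/
def TfL (δ : Derivation ℚ ℂ ℂ) : ℂ →ₗ[ℚ] ℂ :=
  (AddMonoidHom.mk' (Tf δ) (Tf_add δ)).toRatLinearMap

theorem TfL_apply (δ : Derivation ℚ ℂ ℂ) (t : ℂ) : TfL δ t = Tf δ t := rfl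

theorem Tf_lin (δ : Derivation ℚ ℂ ℂ) {ι : Type} [Fintype ι] (q : ι → ℚ) (t : ι → ℂ) :
    Tf δ (∑ j, q j • t j) = ∑ j, (q j : ℂ) * Tf δ (t j) := by
  rw [← TfL_apply, map_sum]
  refine sum_congr rfl (fun j _ => ?_)
  rw [map_smul, TfL_apply, Rat.smul_def]

theorem Tf_add_der (δ δ' : Derivation ℚ ℂ ℂ) (t : ℂ) : Tf (δ + δ') t = Tf δ t + Tf δ' t := by
  unfold Tf
  rw [lg_add_der, Derivation.add_apply]
  ring

theorem Tf_smul_der (c : ℂ) (δ : Derivation ℚ ℂ ℂ) (t : ℂ) : Tf (c • δ) t = c * Tf δ t := by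
  unfold Tf
  rw [lg_smul_der, Derivation.smul_apply, smul_eq_mul]
  ring

theorem D_exp {t : ℂ} (ht : Tf D t = 0) : D (Complex.exp t) = Complex.exp t * D t := by
  have h1 := Complex.exp_ne_zero t
  unfold Tf lg at ht
  field_simp at ht
  linear_combination -ht

/-- flatness for the exponential function -/
theorem D_Tf {t : ℂ} (ht : Tf D t = 0) (δ : Derivation ℚ ℂ ℂ) : D (Tf δ t) = Tf ⁅D, δ⁆ t := by
  have h1 := Complex.exp_ne_zero t
  have h2 := D_exp ht
  have h3 : D (lg δ t) * Complex.exp t = D (δ (Complex.exp t)) - lg δ t * D (Complex.exp t) := by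
    have h4 : lg δ t * Complex.exp t = δ (Complex.exp t) := by
      unfold lg
      field_simp
    have h5 := congrArg D h4
    rw [D_mul] at h5
    linear_combination h5
  have h6 : δ (D (Complex.exp t)) = Complex.exp t * δ (D t) + δ (Complex.exp t) * D t := by
    rw [h2, D_mul]
    ring
  have h7 : lg δ t * Complex.exp t = δ (Complex.exp t) := by
    unfold lg
    field_simp
  apply mul_right_cancel₀ h1
  unfold Tf
  rw [map_sub, Derivation.commutator_apply]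
  have h8 : lg ⁅D, δ⁆ t * Complex.exp t = D (δ (Complex.exp t)) - δ (D (Complex.exp t)) := by
    unfold lg
    rw [Derivation.commutator_apply]
    field_simp
  rw [sub_mul, sub_mul, h8, h3, h6, h2]
  linear_combination (D t) * h7

/-- flatness for the logarithmic derivative -/
theorem D_lg {t : ℂ} (ht : Tf D t = 0) (δ : Derivation ℚ ℂ ℂ) :
    D (lg δ t) = lg ⁅D, δ⁆ t + δ (D t) := by
  have h1 := D_Tf ht δ
  unfold Tf at h1
  rw [map_sub, Derivation.commutator_apply] at h1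
  linear_combination -h1

/-- the numbers attached to finitely many numbers -/
def ET {s : ℕ} (t : Fin s → ℂ) : Set ℂ := Set.range t ∪ Set.range (fun l => Complex.exp (t l))

theorem ET_finite {s : ℕ} (t : Fin s → ℂ) : (ET t).Finite :=
  (Set.finite_range _).union (Set.finite_range _)

theorem Tf_of_kill {t : ℂ} (h1 : δ t = 0) (h2 : δ (Complex.exp t) = 0) : Tf δ t = 0 := by
  unfold Tf lg
  rw [h1, h2]
  ring

/-- **Step 1**: relations with constant coefficients -/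
theorem step1T (h : Nrm L D) {s n : ℕ} {t : Fin s → ℂ} (ht : ∀ l, Tf D (t l) = 0)
    {p : Fin n → ℂ} (hp : ∀ i, p i ∈ Cm h)
    (hr : (MK (K1 L D)).eRk (ET t ∪ EP L p) < ((s + 2 * n : ℕ) : ℕ∞)) :
    ∃ (a : Fin s → ℂ) (c c' : Fin n → ℂ), (∀ l, D (a l) = 0) ∧ (∀ i, D (c i) = 0) ∧
      (∀ i, D (c' i) = 0) ∧ (a ≠ 0 ∨ c ≠ 0 ∨ c' ≠ 0) ∧
      ∀ δ ∈ DF (K1 L D), ∑ l, a l * Tf δ (t l) +
        ∑ i, Pf L (Om L (c i) (c' i)) (Et L (c i) (c' i)) δ (p i) = 0 := by
  classical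
  let f : DF (K1 L D) →ₗ[ℂ] (Fin s ⊕ (Fin n ⊕ Fin n) → ℂ) :=
    { toFun := fun δ => Sum.elim (fun l => Tf (δ : Derivation ℚ ℂ ℂ) (t l))
        (Sum.elim (fun i => Pf L L.ω₁ (eta L L.ω₁) (δ : Derivation ℚ ℂ ℂ) (p i))
          (fun i => Pf L L.ω₂ (eta L L.ω₂) (δ : Derivation ℚ ℂ ℂ) (p i)))
      map_add' := fun δ δ' => by
        funext k
        rcases k with i | i | i
        · exact Tf_add_der _ _ _
        · exact Pf_add _ _ _ _ _
        · exact Pf_add _ _ _ _ _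
      map_smul' := fun c δ => by
        funext k
        rcases k with i | i | i
        · exact Tf_smul_der _ _ _
        · exact Pf_smul _ _ _ _ _
        · exact Pf_smul _ _ _ _ _ }
  obtain ⟨a, ha0, ha⟩ := exists_rel ((ET_finite t).union (EP_finite (L := L) p)) f (fun δ hδ => by
    have h1 : ∀ i ω η, Pf L ω η (δ : Derivation ℚ ℂ ℂ) (p i) = 0 := fun i ω η =>
      Pf_of_kill (hδ _ (Or.inr (Or.inr (Or.inr ⟨i, rfl⟩)))) (hδ _ (Or.inr (Or.inl ⟨i, rfl⟩)))
        (hδ _ (Or.inr (Or.inr (Or.inl ⟨i, rfl⟩)))) ω η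
    funext k
    rcases k with i | i | i
    · exact Tf_of_kill (hδ _ (Or.inl (Or.inl ⟨i, rfl⟩))) (hδ _ (Or.inl (Or.inr ⟨i, rfl⟩)))
    · exact h1 _ _ _
    · exact h1 _ _ _) (by
    rw [Fintype.card_sum, Fintype.card_sum, Fintype.card_fin, Fintype.card_fin, ← two_mul]
    exact hr)
  let W : Set (Fin s ⊕ (Fin n ⊕ Fin n) → ℂ) := {a | ∀ δ, ∑ i, a i * f δ i = 0}
  obtain ⟨c, hcW, hc0, hcD⟩ := exists_const_vec D W (fun a ha i _ δ => by
      have := ha δ
      have e : ∑ j, a j / a i * f δ j = (∑ j, a j * f δ j) / a i := by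
        rw [sum_div]
        exact sum_congr rfl (fun j _ => by ring)
      change ∑ j, a j / a i * f δ j = 0
      rw [e, this, zero_div]) (fun a ha δ => by
      have h1 := congrArg D (ha δ)
      rw [map_zero, map_sum] at h1
      have hδ2 : (δ : Derivation ℚ ℂ ℂ) L.g₂ = 0 := δ.2 _ g_K1
      let δ' : DF (K1 L D) := ⟨⁅D, (δ : Derivation ℚ ℂ ℂ)⁆, br_K1 h δ.2⟩
      have h2 : ∀ k, D (f δ k) = f δ' k := by
        intro k
        rcases k with i | i | i
        · exact D_Tf (ht i) _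
        · exact D_Pf hδ2 (hp i) (h.hω _ L.ω₁_mem_lattice) (h.hη _ L.ω₁_mem_lattice)
        · exact D_Pf hδ2 (hp i) (h.hω _ L.ω₂_mem_lattice) (h.hη _ L.ω₂_mem_lattice)
      have h3 : ∀ k, D (a k * f δ k) = a k * f δ' k + D (a k) * f δ k := by
        intro k
        rw [D_mul, h2]
        ring
      rw [sum_congr rfl (fun k _ => h3 k), sum_add_distrib, ha δ', zero_add] at h1
      exact h1) ha ha0
  refine ⟨fun l => c (Sum.inl l), fun i => c (Sum.inr (Sum.inl i)),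
    fun i => c (Sum.inr (Sum.inr i)), fun i => hcD _, fun i => hcD _, fun i => hcD _, ?_,
    fun δ hδ => ?_⟩
  · by_contra hcon
    push Not at hcon
    apply hc0
    funext k
    rcases k with i | i | i
    · exact congrFun hcon.1 i
    · exact congrFun hcon.2.1 i
    · exact congrFun hcon.2.2 i
  · have h1 := hcW ⟨δ, hδ⟩
    rw [Fintype.sum_sum_type, Fintype.sum_sum_type, ← sum_add_distrib] at h1
    rw [← h1]
    congr 1
    refine sum_congr rfl (fun i _ => ?_)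
    change _ = c (Sum.inr (Sum.inl i)) * Pf L L.ω₁ (eta L L.ω₁) δ (p i) +
      c (Sum.inr (Sum.inr i)) * Pf L L.ω₂ (eta L L.ω₂) δ (p i)
    unfold Pf
    ring

theorem exp_K1 {t : ℂ} (ht : ∀ δ ∈ DF (K1 L D), lg δ t = 0) : Complex.exp t ∈ K1 L D := by
  intro δ hδC hδS
  have h1 := ht δ (mem_DF_clo.2 ⟨hδC, hδS⟩)
  unfold lg at h1
  exact (div_eq_zero_iff.1 h1).resolve_right (Complex.exp_ne_zero t)

theorem lg_of_K1 {t : ℂ} (ht : Complex.exp t ∈ K1 L D) (hδ : δ ∈ DF (K1 L D)) : lg δ t = 0 := by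
  unfold lg
  rw [hδ _ ht, zero_div]

/-- a relation between points and exponentials which are rational over the field of periods -/
structure RlnT (h : Nrm L D) {ι κ : Type} [Fintype ι] [Fintype κ] (u f : κ → ℂ)
    (v d d' : ι → ℂ) : Prop where
  hC : ∀ a, v a ∈ Cm h
  hV : ∀ a, v a ∈ V1 L D
  hd : ∀ a, D (d a) = 0
  hd' : ∀ a, D (d' a) = 0
  hu : ∀ b, Tf D (u b) = 0
  he : ∀ b, Complex.exp (u b) ∈ K1 L D
  hf : ∀ b, D (f b) = 0
  mem : ∑ b, f b * u b + ∑ a, (Et L (d a) (d' a) * v a - Om L (d a) (d' a) * zt L (v a)) ∈ K1 L D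

/-- **Step 2** -/
theorem step2T (h : Nrm L D) {s n : ℕ} {t : Fin s → ℂ} (ht : ∀ l, Tf D (t l) = 0)
    {p : Fin n → ℂ} (hp : ∀ i, p i ∈ Cm h)
    (hind : LinearIndependent ℚ (fun i => (PQ L).mkQ (p i))) {a : Fin s → ℂ} {c c' : Fin n → ℂ}
    (ha : ∀ l, D (a l) = 0)
    (hc : ∀ i, D (c i) = 0) (hc' : ∀ i, D (c' i) = 0) (hne : c ≠ 0 ∨ c' ≠ 0)
    (hrel : ∀ δ ∈ DF (K1 L D), ∑ l, a l * Tf δ (t l) +
      ∑ i, Pf L (Om L (c i) (c' i)) (Et L (c i) (c' i)) δ (p i) = 0) :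
    ∃ (ι κ : Type) (_ : Fintype ι) (_ : Fintype κ) (u f : κ → ℂ) (v d d' : ι → ℂ),
      RlnT h u f v d d' ∧ (¬ TR (PQ L) v d ∨ ¬ TR (PQ L) v d') := by
  classical
  have hmem : ∀ {δ : Derivation ℚ ℂ ℂ}, δ ∈ DF (K1 L D) → δ L.g₂ = 0 ∧ δ L.g₃ = 0 := by
    intro δ hδ
    have h2 : δ L.g₂ = 0 := hδ _ g_K1
    exact ⟨h2, g3_of h h2⟩
  have hros := ros (L := L) (noCM h) (K1 L D) g_K1 (by rw [h.hg]; exact g_K1)
    a (fun l => Complex.exp (t l)) (fun l => cst_K1 (ha l)) (fun l => Complex.exp_ne_zero _)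
    (fun i => Et L (c i) (c' i)) (fun i => Om L (c i) (c' i)) p
    (fun i => Et_K1 (cst_K1 (hc i)) (cst_K1 (hc' i)))
    (fun i => Om_K1 (cst_K1 (hc i)) (cst_K1 (hc' i)))
    (∑ l, a l * t l + ∑ i, (Et L (c i) (c' i) * p i - Om L (c i) (c' i) * zt L (p i))) (by
      intro δ hδ
      have h1 := hrel δ hδ
      have h5 : δ (∑ l, a l * t l) = ∑ l, a l * Tf δ (t l) +
          ∑ l, a l * (δ (Complex.exp (t l)) / Complex.exp (t l)) := by
        rw [map_sum, ← sum_add_distrib]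
        refine sum_congr rfl (fun l _ => ?_)
        have e1 : δ (a l) = 0 := hδ _ (cst_K1 (ha l))
        rw [D_mul, e1, Tf, lg]
        ring
      rw [map_add, h5, map_sum]
      have h6 : ∑ i, δ (Et L (c i) (c' i) * p i - Om L (c i) (c' i) * zt L (p i)) =
          ∑ i, Pf L (Om L (c i) (c' i)) (Et L (c i) (c' i)) δ (p i) +
          ∑ i, (Et L (c i) (c' i) * om L δ (p i) +
            Om L (c i) (c' i) * (℘[L] (p i) * om L δ (p i))) := by
        rw [← sum_add_distrib]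
        refine sum_congr rfl (fun i _ => ?_)
        have e1 : δ (Et L (c i) (c' i)) = 0 := hδ _ (Et_K1 (cst_K1 (hc i)) (cst_K1 (hc' i)))
        have e2 : δ (Om L (c i) (c' i)) = 0 := hδ _ (Om_K1 (cst_K1 (hc i)) (cst_K1 (hc' i)))
        rw [map_sub, D_mul, D_mul, e1, e2, Pf, et]
        ring
      rw [h6]
      linear_combination h1)
  have hT1 : TR (V1 L D) p (fun i => Et L (c i) (c' i)) := by
    intro ψ
    rw [mem_V1 h]
    intro δ hδ
    rw [om_lin δ (hmem hδ).1 (hmem hδ).2]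
    exact (hros ψ δ hδ).2.1
  have hT2 : TR (V1 L D) p (fun i => Om L (c i) (c' i)) := by
    intro ψ
    rw [mem_V1 h]
    intro δ hδ
    rw [om_lin δ (hmem hδ).1 (hmem hδ).2]
    exact (hros ψ δ hδ).2.2
  have hT3 : TR (V1 L D) p c := by
    convert TR_comb hT2 hT1 (eta L L.ω₂ / Lg L) (-(L.ω₂ / Lg L)) using 1
    funext i
    have := Lg_ne (L := L)
    field_simp
    unfold Lg
    ring
  have hT4 : TR (V1 L D) p c' := by
    convert TR_comb hT2 hT1 (-(eta L L.ω₁ / Lg L)) (L.ω₁ / Lg L) using 1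
    funext i
    have := Lg_ne (L := L)
    field_simp
    unfold Lg
    ring
  obtain ⟨d1, e1, φ1, he1, hφ1⟩ := exists_coord (K := Cst D) c hc
  obtain ⟨d2, e2, φ2, he2, hφ2⟩ := exists_coord (K := Cst D) c' hc'
  obtain ⟨d3, e3, φ3, he3, hφ3⟩ := exists_coord (K := Cst D) a ha
  set w1 : Fin d1 → ℂ := fun k => ∑ j, φ1 k (c j) • p j with hw1
  set w2 : Fin d2 → ℂ := fun k => ∑ j, φ2 k (c' j) • p j with hw2
  set w3 : Fin d3 → ℂ := fun k => ∑ j, φ3 k (a j) • t j with hw3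
  have hw1V : ∀ k, w1 k ∈ V1 L D := fun k => hT3 (φ1 k)
  have hw2V : ∀ k, w2 k ∈ V1 L D := fun k => hT4 (φ2 k)
  have hw3V : ∀ k, ∀ δ ∈ DF (K1 L D), lg δ (w3 k) = 0 := by
    intro k δ hδ
    rw [hw3, lg_lin]
    exact (hros (φ3 k) δ hδ).1
  refine ⟨Fin d1 ⊕ Fin d2, Fin d3, inferInstance, inferInstance, w3, e3, Sum.elim w1 w2,
    Sum.elim e1 (fun _ => 0), Sum.elim (fun _ => 0) e2, ⟨?_, ?_, ?_, ?_, ?_, ?_, ?_, ?_⟩, ?_⟩
  · rintro (k | k)
    · exact Submodule.sum_mem _ (fun j _ => Submodule.smul_mem _ _ (hp j))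
    · exact Submodule.sum_mem _ (fun j _ => Submodule.smul_mem _ _ (hp j))
  · rintro (k | k)
    · exact hw1V k
    · exact hw2V k
  · rintro (k | k)
    · exact he1 k
    · exact map_zero D
  · rintro (k | k)
    · exact map_zero D
    · exact he2 k
  · intro k
    rw [hw3, Tf_lin]
    exact sum_eq_zero (fun j _ => by rw [ht, mul_zero])
  · intro k
    exact exp_K1 (hw3V k)
  · exact he3
  · rw [Fintype.sum_sum_type]
    simp only [Sum.elim_inl, Sum.elim_inr]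
    intro δ hδC hδS
    have hδ : δ ∈ DF (K1 L D) := mem_DF_clo.2 ⟨hδC, hδS⟩
    obtain ⟨hg2, hg3⟩ := hmem hδ
    have q1 : ∀ k, δ (Et L (e1 k) 0 * w1 k - Om L (e1 k) 0 * zt L (w1 k)) =
        e1 k * ∑ j, (φ1 k (c j) : ℂ) * Pf L L.ω₁ (eta L L.ω₁) δ (p j) := by
      intro k
      have e3 : δ (Et L (e1 k) 0) = 0 := hδ _ (Et_K1 (cst_K1 (he1 k)) (cst_K1 (map_zero D)))
      have e4 : δ (Om L (e1 k) 0) = 0 := hδ _ (Om_K1 (cst_K1 (he1 k)) (cst_K1 (map_zero D)))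
      have hwk : ∑ j, φ1 k (c j) • p j = w1 k := rfl
      rw [map_sub, D_mul, D_mul, e3, e4, ← Pf_lin hg2 hg3, hwk]
      unfold Pf et
      rw [V1_om h (hw1V k) hδ]
      unfold Et Om
      ring
    have q2 : ∀ k, δ (Et L 0 (e2 k) * w2 k - Om L 0 (e2 k) * zt L (w2 k)) =
        e2 k * ∑ j, (φ2 k (c' j) : ℂ) * Pf L L.ω₂ (eta L L.ω₂) δ (p j) := by
      intro k
      have e3 : δ (Et L 0 (e2 k)) = 0 := hδ _ (Et_K1 (cst_K1 (map_zero D)) (cst_K1 (he2 k)))
      have e4 : δ (Om L 0 (e2 k)) = 0 := hδ _ (Om_K1 (cst_K1 (map_zero D)) (cst_K1 (he2 k)))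
      have hwk : ∑ j, φ2 k (c' j) • p j = w2 k := rfl
      rw [map_sub, D_mul, D_mul, e3, e4, ← Pf_lin hg2 hg3, hwk]
      unfold Pf et
      rw [V1_om h (hw2V k) hδ]
      unfold Et Om
      ring
    have q3 : ∀ k, δ (e3 k * w3 k) = e3 k * ∑ j, (φ3 k (a j) : ℂ) * Tf δ (t j) := by
      intro k
      have e4 : δ (e3 k) = 0 := hδ _ (cst_K1 (he3 k))
      have hwk : ∑ j, φ3 k (a j) • t j = w3 k := rfl
      rw [D_mul, e4, ← Tf_lin, hwk, Tf, hw3V k δ hδ]
      ring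
    rw [map_add, map_add, map_sum, map_sum, map_sum, sum_congr rfl (fun k _ => q1 k),
      sum_congr rfl (fun k _ => q2 k), sum_congr rfl (fun k _ => q3 k),
      sum_coord' hφ1, sum_coord' hφ2, sum_coord' hφ3, ← sum_add_distrib, ← hrel δ hδ]
    congr 1
    refine sum_congr rfl (fun j _ => ?_)
    unfold Pf Om Et
    ring
  · rcases hne with hne | hne
    · left
      intro hT
      refine not_TR hind hne (fun ψ => ?_)
      have h1 := hT ψ
      rw [Fintype.sum_sum_type] at h1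
      simp only [Sum.elim_inl, Sum.elim_inr, map_zero, zero_smul, sum_const_zero, add_zero] at h1
      rwa [hw1, tensor_coord hφ1] at h1
    · right
      intro hT
      refine not_TR hind hne (fun ψ => ?_)
      have h1 := hT ψ
      rw [Fintype.sum_sum_type] at h1
      simp only [Sum.elim_inl, Sum.elim_inr, map_zero, zero_smul, sum_const_zero, zero_add] at h1
      rwa [hw2, tensor_coord hφ2] at h1

end Pool.Agent.Y776
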