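import Mathlib
import Pool.Agent.Y685.App
import Pool.Agent.Y776.Sys
import Pool.Agent.Y776.TorA

/-!
# The system of functions with exponentials
-/

set_option autoImplicit false

open Filter UpperHalfPlane
open scoped Topology PeriodPair

noncomputable section

namespace Pool.Agent.Y776

open H667R3 Pool.Agent.W245.EB Pool.Agent.Y685 MvPolynomial

variable {n s : ℕ}

/-- the derivatives in the directions of `τ` and of the points -/
def PQ1 : Fin (n + 1) → Sg n → MvPolynomial (Sg n) ℚ := Fin.cons (P0 ℚ) (P1 ℚ)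

theorem ratC (q : ℚ) : (algebraMap ℚ ℂ) q = (q : ℂ) := eq_ratCast _ _

theorem Ph_der {x : Fin (n + 1) → ℂ} (hxU : x ∈ Um n) (s₀ : Sg n) :
    HasFDerivAt (fun y => Ph y s₀) (∑ j, (aeval (Ph x) (PQ1 (n := n) j s₀)) •
      (ContinuousLinearMap.proj j : (Fin (n + 1) → ℂ) →L[ℂ] ℂ)) x := by
  classical
  obtain ⟨h0, hx⟩ := hxU
  have e2 : (∑ j, (aeval (Ph x)) (PQ1 (n := n) j s₀) •
      (ContinuousLinearMap.proj j : (Fin (n + 1) → ℂ) →L[ℂ] ℂ)) =
      aeval (Ph x) (P0 ℚ s₀) • (ContinuousLinearMap.proj 0 : (Fin (n + 1) → ℂ) →L[ℂ] ℂ) +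
    ∑ j : Fin n, aeval (Ph x) (P1 ℚ j s₀) •
      (ContinuousLinearMap.proj j.succ : (Fin (n + 1) → ℂ) →L[ℂ] ℂ) := by
    rw [Fin.sum_univ_succ]
    simp [PQ1]
  rw [e2]
  obtain ⟨a1, a2, a3, a4, a5⟩ := H2.task_A4 (x 0) h0
  have key : ∀ (E : (Fin (n + 1) → ℂ) →L[ℂ] ℂ), (∀ v, E v = aeval (Ph x) (P0 ℚ s₀) * v 0 +
      ∑ j : Fin n, aeval (Ph x) (P1 ℚ j s₀) * v j.succ) → E =
      aeval (Ph x) (P0 ℚ s₀) • (ContinuousLinearMap.proj 0 : (Fin (n + 1) → ℂ) →L[ℂ] ℂ) +
      ∑ j : Fin n, aeval (Ph x) (P1 ℚ j s₀) •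
      (ContinuousLinearMap.proj j.succ : (Fin (n + 1) → ℂ) →L[ℂ] ℂ) := by
    intro E hE
    refine ContinuousLinearMap.ext (fun v => ?_)
    rw [hE v]
    simp
  cases s₀ with
  | tau =>
    refine (hasFDerivAt_one (hasDerivAt_id (x 0))).congr_fderiv (key _ (fun v => ?_))
    simp [P0, P1]
  | h =>
    refine (hasFDerivAt_one a1).congr_fderiv (key _ (fun v => ?_))
    simp [P0, P1, Ph, map_ofNat, -mul_eq_mul_right_iff]
    ring
  | g2 =>
    refine (hasFDerivAt_one a2).congr_fderiv (key _ (fun v => ?_))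
    simp [P0, P1, Pal, Ph, map_ofNat, -mul_eq_mul_right_iff]
    unfold al
    ring
  | g3 =>
    refine (hasFDerivAt_one a3).congr_fderiv (key _ (fun v => ?_))
    simp [P0, P1, Pal, Ph, map_ofNat, -mul_eq_mul_right_iff]
    unfold al
    ring
  | b =>
    refine (hasFDerivAt_one (hasDerivAt_be h0)).congr_fderiv (key _ (fun v => ?_))
    simp [P0, P1]
  | z i =>
    refine ((ContinuousLinearMap.proj (R := ℂ) (φ := fun _ : Fin (n + 1) => ℂ)
      i.succ).hasFDerivAt (x := x)).congr_fderiv (key _ (fun v => ?_))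
    simp [P0, P1, apply_ite (aeval (Ph x)), ite_mul]
  | ze i =>
    have := hasFDerivAt_two i (c := al (x 0) * (x i.succ * ℘[LC (x 0)] (x i.succ) -
      zeta (LC (x 0)) (x i.succ)) + be (x 0) * (℘'[LC (x 0)] (x i.succ) / 2 +
      zeta (LC (x 0)) (x i.succ) * ℘[LC (x 0)] (x i.succ) -
      (LC (x 0)).g₂ / 12 * x i.succ)) (d := -℘[LC (x 0)] (x i.succ)) (by
      refine (H2.task_A1 (x 0) (x i.succ) h0 (hx i)).congr_fderiv ?_
      refine ContinuousLinearMap.ext (fun v => ?_)
      simp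
      ring)
    refine this.congr_fderiv (key _ (fun v => ?_))
    simp [P0, P1, Pal, Ph, apply_ite (aeval (Ph x)), ite_mul, map_ofNat,
      -mul_eq_mul_right_iff]
    unfold al
    ring
  | wp i =>
    have := hasFDerivAt_two i (H2.task_A2 (x 0) (x i.succ) h0 (hx i))
    refine this.congr_fderiv (key _ (fun v => ?_))
    simp [P0, P1, Pal, Ph, apply_ite (aeval (Ph x)), ite_mul, map_ofNat,
      -mul_eq_mul_right_iff]
    unfold al
    ring
  | wp' i =>
    have := hasFDerivAt_two i (H2.task_A3 (x 0) (x i.succ) h0 (hx i))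
    refine this.congr_fderiv (key _ (fun v => ?_))
    simp [P0, P1, Pal, Ph, apply_ite (aeval (Ph x)), ite_mul, map_ofNat,
      -mul_eq_mul_right_iff]
    unfold al
    ring

/-- names of the functions -/
abbrev Sx (n s : ℕ) : Type := Sg n ⊕ (Fin s ⊕ Fin s)

instance : Fintype (Sx n s) := by
  have : Fintype (Sg n) := Fintype.ofFinite _
  exact inferInstance

/-- the functions -/
def Px (x : Fin (n + 1 + s) → ℂ) : Sx n s → ℂ :=
  Sum.elim (Ph (fun j => x (Fin.castAdd s j))) (Sum.elim (fun l => x (Fin.natAdd (n + 1) l))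
    (fun l => Complex.exp (x (Fin.natAdd (n + 1) l))))

/-- the derivatives in the directions of the exponents -/
def P2 (l : Fin s) : Sx n s → MvPolynomial (Sx n s) ℚ :=
  Sum.elim (fun _ => 0) (Sum.elim (fun l' => if l = l' then 1 else 0)
    (fun l' => if l = l' then X (Sum.inr (Sum.inr l')) else 0))

/-- all derivatives -/
def PX : Fin (n + 1 + s) → Sx n s → MvPolynomial (Sx n s) ℚ :=
  Fin.append (fun j => Sum.elim (fun s₀ => rename Sum.inl (PQ1 j s₀)) (fun _ => 0)) P2

/-- the domain -/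
def Ux (n s : ℕ) : Set (Fin (n + 1 + s) → ℂ) := {x | (fun j => x (Fin.castAdd s j)) ∈ Um n}

/-- the projection -/
def prl : (Fin (n + 1 + s) → ℂ) →L[ℂ] (Fin (n + 1) → ℂ) :=
  ContinuousLinearMap.pi (fun j => ContinuousLinearMap.proj (Fin.castAdd s j))

theorem isOpen_Ux : IsOpen (Ux n s) :=
  isOpen_Um.preimage (prl (n := n) (s := s)).continuous

theorem Px_der {x : Fin (n + 1 + s) → ℂ} (hx : x ∈ Ux n s) (s₀ : Sx n s) :
    HasFDerivAt (fun y => Px y s₀) (∑ j, (aeval (Px x) (PX (n := n) (s := s) j s₀)) •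
      (ContinuousLinearMap.proj j : (Fin (n + 1 + s) → ℂ) →L[ℂ] ℂ)) x := by
  classical
  rw [Fin.sum_univ_add]
  simp only [PX, Fin.append_left, Fin.append_right]
  rcases s₀ with s₀ | l | l
  · have h1 := (Ph_der hx s₀).comp x (prl (n := n) (s := s)).hasFDerivAt
    refine h1.congr_fderiv ?_
    refine ContinuousLinearMap.ext (fun v => ?_)
    simp only [P2, Sum.elim_inl, aeval_rename, ContinuousLinearMap.comp_apply,
      _root_.add_apply, _root_.sum_apply, _root_.smul_apply,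
      ContinuousLinearMap.proj_apply, smul_eq_mul, map_zero, zero_mul, Finset.sum_const_zero,
      add_zero]
    rfl
  · have e1 : ∀ i : Fin s, aeval (Px x) (P2 (n := n) i (Sum.inr (Sum.inl l))) =
        if i = l then (1 : ℂ) else 0 := by
      intro i
      simp only [P2, Sum.elim_inr, Sum.elim_inl]
      split_ifs <;> simp
    refine ((ContinuousLinearMap.proj (R := ℂ) (φ := fun _ : Fin (n + 1 + s) => ℂ)
      (Fin.natAdd (n + 1) l)).hasFDerivAt (x := x)).congr_fderiv ?_
    refine ContinuousLinearMap.ext (fun v => ?_)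
    simp only [e1, Sum.elim_inr, map_zero, _root_.add_apply, _root_.sum_apply, _root_.smul_apply,
      ContinuousLinearMap.proj_apply, smul_eq_mul, zero_mul, Finset.sum_const_zero, zero_add,
      ite_mul, one_mul, Finset.sum_ite_eq', Finset.mem_univ, if_true]
  · have e1 : ∀ i : Fin s, aeval (Px x) (P2 (n := n) i (Sum.inr (Sum.inr l))) =
        if i = l then Complex.exp (x (Fin.natAdd (n + 1) l)) else 0 := by
      intro i
      simp only [P2, Sum.elim_inr]
      split_ifs
      · rw [aeval_X]; rfl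
      · simp
    have h1 := ((ContinuousLinearMap.proj (R := ℂ) (φ := fun _ : Fin (n + 1 + s) => ℂ)
      (Fin.natAdd (n + 1) l)).hasFDerivAt (x := x)).cexp
    refine h1.congr_fderiv ?_
    refine ContinuousLinearMap.ext (fun v => ?_)
    simp only [e1, Sum.elim_inr, map_zero, _root_.add_apply, _root_.sum_apply, _root_.smul_apply,
      ContinuousLinearMap.proj_apply, smul_eq_mul, zero_mul, Finset.sum_const_zero, zero_add,
      ite_mul, Finset.sum_ite_eq', Finset.mem_univ, if_true]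

/-- homogeneous compatibility of a derivation with the functions -/
def CD (K : Subfield ℂ) (τ : ℂ) (z : Fin n → ℂ) (t : Fin s → ℂ) :
    Submodule ℂ (Derivation ℚ ℂ ℂ) where
  carrier := {D | (∀ c ∈ K, D c = 0) ∧ (∀ l, Tf D (t l) = 0) ∧
    ∃ v : Fin (n + 1) → ℂ, ∀ s₀ : Sg n, D (Ph (Fin.cons τ z) s₀) =
      ∑ j, v j * aeval (Ph (Fin.cons τ z)) (PQ1 j s₀)}
  add_mem' := by
    rintro D D' ⟨h1, h2, v, h3⟩ ⟨h1', h2', v', h3'⟩
    refine ⟨fun c hc => ?_, fun l => ?_, v + v', fun s₀ => ?_⟩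
    · rw [Derivation.add_apply, h1 c hc, h1' c hc, add_zero]
    · rw [Tf_add_der, h2, h2', add_zero]
    · rw [Derivation.add_apply, h3, h3', ← Finset.sum_add_distrib]
      exact Finset.sum_congr rfl (fun j _ => by rw [Pi.add_apply]; ring)
  zero_mem' := by
    refine ⟨fun c _ => rfl, fun l => ?_, 0, fun s₀ => ?_⟩
    · simp [Tf, lg]
    · simp
  smul_mem' := by
    rintro c D ⟨h1, h2, v, h3⟩
    refine ⟨fun x hx => ?_, fun l => ?_, c • v, fun s₀ => ?_⟩
    · rw [Derivation.smul_apply, h1 x hx, smul_zero]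
    · rw [Tf_smul_der, h2, mul_zero]
    · rw [Derivation.smul_apply, h3, smul_eq_mul, Finset.mul_sum]
      exact Finset.sum_congr rfl (fun j _ => by rw [Pi.smul_apply, smul_eq_mul]; ring)

/-- the value of the coordinates of the point `(τ, z, t)` -/
def pt (τ : ℂ) (z : Fin n → ℂ) (t : Fin s → ℂ) : Fin (n + 1 + s) → ℂ :=
  Fin.append (Fin.cons τ z) t

theorem pt_left (τ : ℂ) (z : Fin n → ℂ) (t : Fin s → ℂ) :
    (fun j => pt τ z t (Fin.castAdd s j)) = Fin.cons τ z := by
  funext j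
  simp [pt]

theorem pt_right (τ : ℂ) (z : Fin n → ℂ) (t : Fin s → ℂ) (l : Fin s) :
    pt τ z t (Fin.natAdd (n + 1) l) = t l := by
  simp [pt]

/-- compatible derivations from good points -/
theorem good_CD {K : Subfield ℂ} {τ : ℂ} {z : Fin n → ℂ} {t : Fin s → ℂ}
    {j₀ : Fin (n + 1 + s)} (h : Good PX K (Px (pt τ z t)) j₀) :
    ∃ D ∈ CD K τ z t, D (pt τ z t j₀) = 1 := by
  obtain ⟨D, v, h1, h2, h3⟩ := good_der h
  have hv : ∀ j, D (pt τ z t j) = v j := by
    intro j
    refine Fin.addCases (fun j => ?_) (fun l => ?_) j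
    · refine Fin.cases ?_ (fun i => ?_) j
      · have := h3 (Sum.inl .tau)
        rw [Fin.sum_univ_add, Fin.sum_univ_succ] at this
        simpa [PX, PQ1, P0, P1, P2, Px, Ph, pt] using this
      · have := h3 (Sum.inl (.z i))
        rw [Fin.sum_univ_add, Fin.sum_univ_succ] at this
        simpa [PX, PQ1, P0, P1, P2, Px, Ph, pt, apply_ite (rename _), apply_ite (aeval _)]
          using this
    · have := h3 (Sum.inr (Sum.inl l))
      rw [Fin.sum_univ_add] at this
      simpa [PX, P2, Px, pt, apply_ite (aeval _)] using this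
  refine ⟨D, ⟨h1, fun l => ?_, fun j => v (Fin.castAdd s j), fun s₀ => ?_⟩, ?_⟩
  · have e1 := h3 (Sum.inr (Sum.inr l))
    rw [Fin.sum_univ_add] at e1
    have e2 : D (Complex.exp (t l)) = v (Fin.natAdd (n + 1) l) * Complex.exp (t l) := by
      simpa [PX, P2, Px, pt, apply_ite (aeval _)] using e1
    have e3 := hv (Fin.natAdd (n + 1) l)
    rw [pt_right] at e3
    have e4 := Complex.exp_ne_zero (t l)
    unfold Tf lg
    rw [e2, e3]
    field_simp
    ring
  · have e1 := h3 (Sum.inl s₀)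
    rw [Fin.sum_univ_add] at e1
    have e2 : Px (pt τ z t) (Sum.inl s₀) = Ph (Fin.cons τ z) s₀ := by
      change Ph (fun j => pt τ z t (Fin.castAdd s j)) s₀ = _
      rw [pt_left]
    rw [e2] at e1
    rw [e1]
    have e3 : ∀ l : Fin s, aeval (Px (pt τ z t)) (PX (n := n) (Fin.natAdd (n + 1) l)
        (Sum.inl s₀)) = 0 := by
      intro l
      simp [PX, P2]
    simp only [e3, mul_zero, Finset.sum_const_zero, add_zero]
    refine Finset.sum_congr rfl (fun j _ => ?_)
    congr 1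
    simp only [PX, Fin.append_left, Sum.elim_inl, aeval_rename]
    congr 2
    funext s₁
    change Ph (fun j => pt τ z t (Fin.castAdd s j)) s₁ = _
    rw [pt_left]
  · rw [hv, h2]

end Pool.Agent.Y776
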