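import Mathlib
import Pool.Agent.Y776.AppT
import Pool.Agent.Y776.Chain

/-!
# Compatible derivations which do not kill the exponents
-/

set_option autoImplicit false

open Filter UpperHalfPlane
open scoped Topology PeriodPair

noncomputable section

namespace Pool.Agent.Y776

open H667R3 Pool.Agent.W245.EB Pool.Agent.Y685 MvPolynomial

variable {n s : ℕ}

/-- normalized compatible derivations -/
theorem CD.cmp {K : Subfield ℂ} {τ : ℂ} {z : Fin n → ℂ} {t : Fin s → ℂ}
    {D : Derivation ℚ ℂ ℂ} (h : D ∈ CD K τ z t) (hτ : D τ = 1) : Cmp K τ z D := by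
  obtain ⟨h1, -, v, h3⟩ := h
  have h2 : v 0 = 1 := by
    have := h3 .tau
    rw [Fin.sum_univ_succ] at this
    simp [Ph, PQ1, P0, P1] at this
    rw [← this, hτ]
  have h4 : ∀ s₀, D (Ph (Fin.cons τ z : Fin (n + 1) → ℂ) s₀) =
      aeval (Ph (Fin.cons τ z)) (P0 ℚ s₀) +
        ∑ j : Fin n, v j.succ * aeval (Ph (Fin.cons τ z)) (P1 ℚ j s₀) := by
    intro s₀
    rw [h3 s₀, Fin.sum_univ_succ, h2, one_mul]
    simp [PQ1]
  have hv : ∀ i : Fin n, D (z i) = v i.succ := by
    intro i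
    have := h4 (.z i)
    simpa [Ph, P0, P1, apply_ite] using this
  refine ⟨h1, ?_, ?_, ?_, ?_, ?_, fun i => ?_, fun i => ?_⟩
  · have := h4 .tau
    simpa [Ph, P0, P1] using this
  · have := h4 .h
    simp only [P0, P1, map_sub, map_mul, map_pow, aeval_X, aeval_C, Ph, map_zero, mul_zero,
          Finset.sum_const_zero, add_zero, map_div₀, map_one, map_ofNat, Fin.cons_zero] at this
    rw [this]
    ring
  · have := h4 .g2
    simp only [P0, P1, Pal, map_sub, map_mul, map_neg, aeval_X, Ph, map_zero, mul_zero,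
          Finset.sum_const_zero, add_zero, map_ofNat, Fin.cons_zero] at this
    rw [this]
    rfl
  · have := h4 .g3
    simp only [P0, P1, Pal, map_sub, map_mul, map_neg, map_pow, aeval_X, aeval_C, Ph, map_zero,
          mul_zero, Finset.sum_const_zero, add_zero, map_div₀, map_one, map_ofNat,
          Fin.cons_zero] at this
    rw [this]
    unfold al
    ring
  · have := h4 .b
    simpa [Ph, P0, P1] using this
  · have := h4 (.ze i)
    simp only [P0, P1, Pal, map_sub, map_mul, map_neg, map_pow, map_add, aeval_X, aeval_C, Ph,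
          map_zero, map_div₀, map_one, map_ofNat, apply_ite (aeval (Ph (Fin.cons τ z))), mul_ite,
          mul_zero, Finset.sum_ite_eq', Finset.mem_univ, if_true, Fin.cons_zero,
          Fin.cons_succ] at this
    rw [this, hv]
    unfold al
    ring
  · have := h4 (.wp i)
    simp only [P0, P1, Pal, map_sub, map_mul, map_neg, map_pow, map_add, aeval_X, aeval_C, Ph,
          map_zero, map_div₀, map_one, map_ofNat, apply_ite (aeval (Ph (Fin.cons τ z))), mul_ite,
          mul_zero, Finset.sum_ite_eq', Finset.mem_univ, if_true, Fin.cons_zero,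
          Fin.cons_succ] at this
    rw [this, hv]
    unfold al
    ring

/-- the two conditions on a field which come from the countability lemma -/
structure Gd (K : Subfield ℂ) (τ : ℂ) (z : Fin n → ℂ) : Prop where
  gt : ∀ (s : ℕ) (t : Fin s → ℂ), Good PX K (Px (pt τ z t)) (Fin.castAdd s 0)
  ge : ∀ (s : ℕ) (t : Fin s → ℂ) (l : Fin s), t l ∉ K →
    Good PX K (Px (pt τ z t)) (Fin.natAdd (n + 1) l)

/-- a compatible derivation which does not kill any combination of the exponents -/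
theorem exists_cpt {K : Subfield ℂ} {τ : ℂ} {z : Fin n → ℂ} (hK : Gd K τ z) {t : Fin s → ℂ}
    (hind : ∀ q : Fin s → ℚ, ∑ l, q l • t l ∈ K → q = 0) :
    ∃ D : Derivation ℚ ℂ ℂ, Cmp K τ z D ∧ (∀ l, Tf D (t l) = 0) ∧
      ∀ q : Fin s → ℚ, D (∑ l, q l • t l) = 0 → q = 0 := by
  classical
  let ev : CD K τ z t →ₗ[ℂ] (Option (Fin s) → ℂ) :=
    { toFun := fun D o => (D : Derivation ℚ ℂ ℂ) (o.elim τ t)
      map_add' := fun D D' => rfl
      map_smul' := fun c D => rfl }
  let qv : (Fin s → ℚ) → (Option (Fin s) → ℂ) := fun q o => o.elim 0 (fun l => (q l : ℂ))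
  let S : Set (Option (Fin s) → ℂ) := insert (Pi.single none 1) (qv '' {q | q ≠ 0})
  have hS : S.Countable := ((Set.to_countable _).image _).insert _
  have hqv : ∀ (q : Fin s → ℚ) (D : CD K τ z t), ∑ o, qv q o * ev D o =
      (D : Derivation ℚ ℂ ℂ) (∑ l, q l • t l) := by
    intro q D
    rw [Fintype.sum_option, map_sum]
    simp only [qv, Option.elim, zero_mul, zero_add]
    refine Finset.sum_congr rfl (fun l _ => ?_)
    rw [Derivation.map_smul, Rat.smul_def]
    rfl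
  have hsg : ∀ (D : CD K τ z t), ∑ o, (Pi.single none 1 : Option (Fin s) → ℂ) o * ev D o =
      (D : Derivation ℚ ℂ ℂ) τ := by
    intro D
    rw [Fintype.sum_option]
    simp [ev]
  obtain ⟨D₀, hD₀⟩ := exists_generic ev hS (by
    rintro q (rfl | ⟨q, hq, rfl⟩)
    · obtain ⟨D, hD, hD1⟩ := good_CD (hK.gt s t)
      refine ⟨⟨D, hD⟩, ?_⟩
      rw [hsg]
      have : pt τ z t (Fin.castAdd s 0) = τ := by simp [pt]
      rw [this] at hD1
      change D τ ≠ 0
      rw [hD1]
      exact one_ne_zero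
    · have hq' : q ≠ 0 := hq
      obtain ⟨l₀, hl₀⟩ := Function.ne_iff.1 hq'
      have hl₀' : q l₀ ≠ 0 := hl₀
      set x : ℂ := ∑ l, q l • t l with hx
      have hxK : x ∉ K := fun h => hq' (hind q h)
      let t' : Fin s → ℂ := Function.update t l₀ x
      have ht'0 : t' l₀ = x := Function.update_self _ _ _
      obtain ⟨D, hD, hD1⟩ := good_CD (hK.ge s t' l₀ (by rw [ht'0]; exact hxK))
      rw [pt_right, ht'0] at hD1
      have hTx : Tf D x = 0 := by
        have := hD.2.1 l₀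
        rwa [ht'0] at this
      have hTt : ∀ l, l ≠ l₀ → Tf D (t l) = 0 := by
        intro l hl
        have h1 := hD.2.1 l
        have h2 : t' l = t l := Function.update_of_ne hl _ _
        rwa [h2] at h1
      have hT0 : Tf D (t l₀) = 0 := by
        rw [hx, Tf_lin, Finset.sum_eq_single l₀ (fun l _ hl => by rw [hTt l hl, mul_zero])
          (fun h => absurd (Finset.mem_univ _) h)] at hTx
        refine (mul_eq_zero.1 hTx).resolve_left ?_
        exact_mod_cast hl₀'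
      refine ⟨⟨D, hD.1, fun l => ?_, hD.2.2⟩, ?_⟩
      · by_cases hl : l = l₀
        · rw [hl]; exact hT0
        · exact hTt l hl
      · rw [hqv]
        change D x ≠ 0
        rw [hD1]
        exact one_ne_zero)
  have hτ0 : (D₀ : Derivation ℚ ℂ ℂ) τ ≠ 0 := by
    rw [← hsg]
    exact hD₀ _ (Or.inl rfl)
  set D : Derivation ℚ ℂ ℂ := ((D₀ : Derivation ℚ ℂ ℂ) τ)⁻¹ • (D₀ : Derivation ℚ ℂ ℂ) with hD
  have hDm : D ∈ CD K τ z t := (CD K τ z t).smul_mem _ D₀.2
  refine ⟨D, CD.cmp hDm ?_, hDm.2.1, fun q hq => ?_⟩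
  · rw [hD, Derivation.smul_apply, smul_eq_mul]
    exact inv_mul_cancel₀ hτ0
  · by_contra hne
    have h1 := hD₀ (qv q) (Or.inr ⟨q, hne, rfl⟩)
    rw [hqv] at h1
    rw [hD, Derivation.smul_apply, smul_eq_mul] at hq
    rcases mul_eq_zero.1 hq with h2 | h2
    · exact inv_ne_zero hτ0 h2
    · exact h1 h2

/-- the exceptional values of `τ` -/
def badT (K : Subfield ℂ) : Set ℂ := {τ | 0 < τ.im ∧ ∃ (n : ℕ) (z : Fin n → ℂ)
  (s : ℕ) (t : Fin s → ℂ), (∀ i, z i ∉ (LC τ).lattice) ∧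
    ¬ Good PX K (Px (pt τ z t)) (Fin.castAdd s 0)}

/-- the exceptional exponents -/
def badE (K : Subfield ℂ) : Set ℂ := {x | ∃ (τ : ℂ) (n : ℕ) (z : Fin n → ℂ) (s : ℕ)
  (t : Fin s → ℂ) (l : Fin s), 0 < τ.im ∧ (∀ i, z i ∉ (LC τ).lattice) ∧ t l = x ∧
    ¬ Good PX K (Px (pt τ z t)) (Fin.natAdd (n + 1) l)}

theorem mem_Ux {τ : ℂ} {z : Fin n → ℂ} {t : Fin s → ℂ} (hτ : 0 < τ.im)
    (hz : ∀ i, z i ∉ (LC τ).lattice) : pt τ z t ∈ Ux n s := by
  change (fun j => pt τ z t (Fin.castAdd s j)) ∈ Um n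
  rw [pt_left]
  exact ⟨by simpa using hτ, fun i => by simpa using hz i⟩

theorem countable_badT {K : Subfield ℂ} (hK : (K : Set ℂ).Countable) : (badT K).Countable := by
  have h1 : ∀ n s : ℕ, {c : ℂ | ∃ a ∈ Ux n s, a (Fin.castAdd s 0) = c ∧
      ¬ Good PX K (Px a) (Fin.castAdd s 0)}.Countable := fun n s =>
    countable_bad PX hK isOpen_Ux (fun x hx s₀ => Px_der hx s₀)
      (s₀ := (Sum.inl .tau : Sx n s)) (fun x => rfl)
  refine (Set.countable_iUnion (fun n => Set.countable_iUnion (fun s => h1 n s))).mono ?_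
  rintro τ ⟨hτ, n, z, s, t, hz, hg⟩
  refine Set.mem_iUnion.2 ⟨n, Set.mem_iUnion.2 ⟨s, pt τ z t, mem_Ux hτ hz, ?_, hg⟩⟩
  simp [pt]

theorem countable_badE {K : Subfield ℂ} (hK : (K : Set ℂ).Countable) : (badE K).Countable := by
  have h1 : ∀ (n s : ℕ) (l : Fin s), {c : ℂ | ∃ a ∈ Ux n s, a (Fin.natAdd (n + 1) l) = c ∧
      ¬ Good PX K (Px a) (Fin.natAdd (n + 1) l)}.Countable := fun n s l =>
    countable_bad PX hK isOpen_Ux (fun x hx s₀ => Px_der hx s₀)
      (s₀ := (Sum.inr (Sum.inl l) : Sx n s)) (fun x => rfl)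
  refine (Set.countable_iUnion (fun n => Set.countable_iUnion (fun s =>
    Set.countable_iUnion (fun l => h1 n s l)))).mono ?_
  rintro x ⟨τ, n, z, s, t, l, hτ, hz, rfl, hg⟩
  refine Set.mem_iUnion.2 ⟨n, Set.mem_iUnion.2 ⟨s, Set.mem_iUnion.2 ⟨l, pt τ z t,
    mem_Ux hτ hz, ?_, hg⟩⟩⟩
  rw [pt_right]

/-- the absolute invariant -/
def jf (τ : ℂ) : ℂ := 1728 * (LC τ).g₂ ^ 3 / ((LC τ).g₂ ^ 3 - 27 * (LC τ).g₃ ^ 2)

/-- **Countable closed fields** -/
theorem exists_field {S₀ : Set ℂ} (hS : S₀.Countable) : ∃ F : Subfield ℂ,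
    (F : Set ℂ).Countable ∧ S₀ ⊆ F ∧ (∀ x, IsAlgebraic F x → x ∈ F) ∧
      (∀ x ∈ F, Complex.exp x ∈ F) ∧
      ∀ τ : ℂ, 0 < τ.im → jf τ ∉ F → ∀ (n : ℕ) (z : Fin n → ℂ),
        (∀ i, z i ∉ (LC τ).lattice) → Gd F τ z := by
  obtain ⟨K, F, hmono, hF, hFc, hSF, hTF, halg⟩ := exists_chain
    (fun k => (jf '' badT k) ∪ (badE k ∪ (Complex.exp '' (k : Set ℂ))))
    (fun k hk => ((countable_badT hk).image _).union ((countable_badE hk).union (hk.image _))) hS
  refine ⟨F, hFc, hSF, halg, ?_, ?_⟩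
  · intro x hx
    obtain ⟨i, hi⟩ := (hF x).1 hx
    exact hTF i (Or.inr (Or.inr ⟨x, hi, rfl⟩))
  · intro τ hτ hj n z hz
    refine ⟨fun s t => ?_, fun s t l hl => ?_⟩
    · refine good_union hmono (fun x hx => (hF x).1 hx) (fun i => ?_)
      by_contra hcon
      apply hj
      exact hTF i (Or.inl ⟨τ, ⟨hτ, n, z, s, t, hz, hcon⟩, rfl⟩)
    · refine good_union hmono (fun x hx => (hF x).1 hx) (fun i => ?_)
      by_contra hcon
      apply hl
      exact hTF i (Or.inr (Or.inl ⟨τ, n, z, s, t, l, hτ, hz, rfl, hcon⟩))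

end Pool.Agent.Y776
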