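import Mathlib
import Pool.Agent.Y776.Fin
import Pool.Agent.Y685.F4

/-!
# General lattices
-/

set_option autoImplicit false

open Filter Module
open scoped Topology PeriodPair

noncomputable section

namespace Pool.Agent.Y776

open H667R3 Pool.Agent.W245.EB Pool.Agent.Y685 Pool.Agent.TH813.Ell
open Pool.Agent.TH813.Rel (DF MK subset_cl rk_le_of_subset_cl)

variable {n s : ℕ}

/-- the analytic part (`task_P` is due to helper119, `no_Bad` to helper685) -/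
theorem noBad : NoBad := fun _ _ _ _ _ _ h _ _ _ _ _ =>
  h.no_Bad Pool.Agent.Y119.PG.task_P

/-- the numbers of the normalized lattice -/
theorem yy_sub {L : PeriodPair} {τ c : ℂ} (hτ : 0 < τ.im) (h : Hm (LC τ) L c)
    {F : IntermediateField ℚ ℂ} (B : Set ℂ) :
    Set.range (yy τ) ⊆ (MK F).closure (GenL L ∪ B) := by
  rintro _ ⟨i, rfl⟩
  rw [mem_cl_iff]
  intro δ _ hS
  have hG : ∀ x ∈ GenL L, δ x = 0 := fun x hx => hS x (Or.inl hx)
  have hc := h.c0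
  have m1 : ∀ u v : ℂ, δ u = 0 → δ v = 0 → δ (u * v) = 0 := fun u v hu hv => by
    rw [D_mul, hu, hv, mul_zero, mul_zero, add_zero]
  have e1 : (1 : ℂ) ∈ (LC τ).lattice := (mem_LC hτ).2 ⟨1, 0, by push_cast; ring⟩
  have e2 : τ ∈ (LC τ).lattice := (mem_LC hτ).2 ⟨0, 1, by push_cast; ring⟩
  have k1 := kill_lattice hG ((h.mem _).2 e1)
  have k2 := kill_lattice hG ((h.mem _).2 e2)
  rw [mul_one] at k1
  have dc : δ c = 0 := k1.1
  have dc' : δ c⁻¹ = 0 := by rw [Derivation.leibniz_inv, dc, smul_zero]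
  fin_cases i
  · change δ τ = 0
    have : τ = c⁻¹ * (c * τ) := by field_simp
    rw [this]
    exact m1 _ _ dc' k2.1
  · change δ (h1 τ) = 0
    have h3 := h.eta e1
    rw [mul_one] at h3
    have : h1 τ = c * eta L c := by
      rw [h3, h1]
      field_simp
    rw [this]
    exact m1 _ _ dc k1.2
  · change δ (LC τ).g₂ = 0
    have : (LC τ).g₂ = c * (c * (c * (c * L.g₂))) := by
      rw [h.g₂]
      field_simp
    rw [this]
    exact m1 _ _ dc (m1 _ _ dc (m1 _ _ dc (m1 _ _ dc (hG _ (by left; rfl)))))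
  · change δ (LC τ).g₃ = 0
    have : (LC τ).g₃ = c * (c * (c * (c * (c * (c * L.g₃))))) := by
      rw [h.g₃]
      field_simp
    rw [this]
    exact m1 _ _ dc (m1 _ _ dc (m1 _ _ dc (m1 _ _ dc (m1 _ _ dc (m1 _ _ dc
      (hG _ (by right; left; rfl)))))))

/-- the points in the normalized lattice -/
theorem ind_norm {L : PeriodPair} {τ c : ℂ} (hτ : 0 < τ.im) (h : Hm (LC τ) L c) {p : Fin n → ℂ}
    (hp : LinearIndependent ℚ (fun i => (PQ L).mkQ (p i))) (q : Fin n → ℚ) (a b : ℚ)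
    (hq : ∑ i, (q i : ℂ) * (c⁻¹ * p i) = a + b * τ) : q = 0 := by
  have hc := h.c0
  funext i
  refine indep_iff.1 hp q ?_ i
  have h1 : ∑ i, (q i : ℂ) * p i = c * (∑ i, (q i : ℂ) * (c⁻¹ * p i)) := by
    rw [Finset.mul_sum]
    refine Finset.sum_congr rfl (fun i _ => ?_)
    field_simp
  rw [h1, hq, h.PQ, mem_PQ_iff]
  refine ⟨a, b, ?_⟩
  rw [Om, LC_ω₁, LC_ω₂ hτ]
  ring

/-- the quotient of the periods -/
theorem tau_notMem {F : IntermediateField ℚ ℂ} {τ : ℂ}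
    (h : ((4 : ℕ) : ℕ∞) ≤ (MK F).eRk (Set.range (yy τ))) : τ ∉ F := by
  intro hτ
  have k1 : (MK F).eRk (Set.range (yy τ)) ≤ (MK F).eRk {h1 τ, (LC τ).g₂, (LC τ).g₃} := by
    apply rk_le_of_subset_cl
    rintro _ ⟨i, rfl⟩
    fin_cases i
    · exact Pool.Agent.TH813.Rel.cl_of_base (k := F) _ ⟨τ, hτ⟩
    · exact subset_cl _ (Or.inl rfl)
    · exact subset_cl _ (Or.inr (Or.inl rfl))
    · exact subset_cl _ (Or.inr (Or.inr rfl))
  have k2 : ({h1 τ, (LC τ).g₂, (LC τ).g₃} : Set ℂ).encard ≤ ((3 : ℕ) : ℕ∞) := by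
    refine (Set.encard_insert_le _ _).trans ?_
    refine (add_le_add (pair_le _ _) le_rfl).trans ?_
    norm_num
  have h3 := h.trans (k1.trans (((MK F).eRk_le_encard _).trans k2))
  norm_cast at h3

theorem ratio_notMem {F : IntermediateField ℚ ℂ} {L : PeriodPair} {τ c : ℂ} (hτ : 0 < τ.im)
    (h : Hm (LC τ) L c) (hF : τ ∉ F) {x : ℂ} (hx : x ∈ F) : L.ω₂ ≠ x * L.ω₁ := by
  intro he
  have e1 : (1 : ℂ) ∈ (LC τ).lattice := (mem_LC hτ).2 ⟨1, 0, by push_cast; ring⟩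
  have e2 : τ ∈ (LC τ).lattice := (mem_LC hτ).2 ⟨0, 1, by push_cast; ring⟩
  obtain ⟨a, b, hab⟩ := PeriodPair.mem_lattice.1 ((h.mem _).2 e1)
  obtain ⟨a', b', hab'⟩ := PeriodPair.mem_lattice.1 ((h.mem _).2 e2)
  rw [he] at hab hab'
  rw [mul_one] at hab
  have h1 : L.ω₁ * (a + b * x) = c := by rw [← hab]; ring
  have h2 : L.ω₁ * (a' + b' * x) = c * τ := by rw [← hab']; ring
  have h3 : (a : ℂ) + b * x ≠ 0 := by
    intro h0
    rw [h0, mul_zero] at h1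
    exact h.c0 h1.symm
  apply hF
  have h4 : τ = (a' + b' * x) / (a + b * x) := by
    rw [eq_div_iff h3]
    apply mul_left_cancel₀ (ω₁_ne_zero L)
    rw [h2, ← h1]
    ring
  rw [h4]
  exact div_mem (add_mem (intCast_mem F a') (mul_mem (intCast_mem F b') hx))
    (add_mem (intCast_mem F a) (mul_mem (intCast_mem F b) hx))

/-- **Independent points and exponents, all lattices** -/
theorem exists_F {S : Set ℂ} (hS : S.Countable) : ∃ F : IntermediateField ℚ ℂ,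
    (F : Set ℂ).Countable ∧ S ⊆ F ∧ (∀ x, IsAlgebraic F x → x ∈ F) ∧
    (∀ x ∈ F, Complex.exp x ∈ F) ∧ 2 * Real.pi * Complex.I ∈ F ∧
    ∀ L : PeriodPair, jv L ∉ F → (∀ x ∈ F, L.ω₂ ≠ x * L.ω₁) ∧
      ∀ (s n : ℕ) (t : Fin s → ℂ) (p : Fin n → ℂ),
      (∀ q : Fin s → ℚ, ∑ i, q i • t i ∈ F → q = 0) →
      LinearIndependent ℚ (fun i => (PQ L).mkQ (p i)) →
      ((4 + (s + 2 * n) : ℕ) : ℕ∞) ≤ (MK F).eRk (GenL L ∪ (ET t ∪ EP L p)) := by
  obtain ⟨F, hFc, hSF, halg, hexp, hpi, hF⟩ := exists_KK noBad hS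
  refine ⟨F, hFc, hSF, halg, hexp, hpi, fun L hL => ?_⟩
  obtain ⟨τ, c, hτ, hc⟩ := exists_LC L
  have hj : jf τ ∉ F := by
    change jv (LC τ) ∉ F
    rw [← hc.jv]
    exact hL
  have hτF : τ ∉ F := by
    obtain ⟨-, l, hl0, hl, L', hL', hrk⟩ := hF τ hτ hj 0 0 ![] ![]
      (fun _ _ _ _ => Subsingleton.elim _ _) (fun _ _ => Subsingleton.elim _ _)
    apply tau_notMem
    refine hrk.trans ((MK F).eRk_mono ?_)
    rintro x (hx | (⟨i, -⟩ | ⟨i, -⟩) | ⟨i, -⟩ | ⟨i, -⟩ | ⟨i, -⟩)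
    · exact hx
    all_goals exact i.elim0
  refine ⟨fun x hx => ratio_notMem hτ hc hτF hx, fun s n t p ht hp => ?_⟩
  obtain ⟨g2, l, hl0, hl, L', hL', hrk⟩ := hF τ hτ hj n s (fun i => c⁻¹ * p i) t
    (ind_norm hτ hc hp) ht
  refine hrk.trans (rk_le_of_subset_cl ?_)
  have hc0 := hc.c0
  have htr : Hm L L' (l * c⁻¹) := hc.symm.trans hL'
  have hl2 : (l * c⁻¹) ^ 2 * L.g₂ = L.g₃ := by
    rw [hc.g₂, hc.g₃, ← hl]
    field_simp
  have hg2 : L.g₂ ≠ 0 := by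
    rw [hc.g₂]
    exact div_ne_zero g2 (pow_ne_zero 4 hc0)
  have h2 := transfer (C := F) htr hl2 hg2 p
  have h3 : (fun i => l * (c⁻¹ * p i)) = fun i => l * c⁻¹ * p i := by
    funext i
    ring
  have hmono : (MK F).closure (GenL L ∪ EP L p) ⊆
      (MK F).closure (GenL L ∪ (ET t ∪ EP L p)) := by
    apply (MK F).closure_subset_closure
    rintro x (hx | hx)
    · exact Or.inl hx
    · exact Or.inr (Or.inr hx)
  rintro x (hx | hx | hx)
  · exact yy_sub hτ hc _ hx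
  · exact subset_cl _ (Or.inr (Or.inl hx))
  · rw [h3] at hx
    exact hmono (h2 (Or.inr hx))

end Pool.Agent.Y776
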