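import Mathlib
import Pool.Agent.Y776.FinB
import Pool.Agent.TH813.EKPer

/-!
# All exponents and all points
-/

set_option autoImplicit false

open Filter Module
open scoped Topology PeriodPair

noncomputable section

namespace Pool.Agent.Y776

open H667R3 Pool.Agent.W245.EB Pool.Agent.Y685 Pool.Agent.TH813.Ell
open Pool.Agent.TH813.Rel (DF MK subset_cl rk_le_of_subset_cl)

variable {n s : ℕ} {L : PeriodPair} {F E : IntermediateField ℚ ℂ}

/-- the conclusion of `exists_F` -/
def RkF (F : IntermediateField ℚ ℂ) (L : PeriodPair) : Prop :=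
  ∀ (s n : ℕ) (t : Fin s → ℂ) (p : Fin n → ℂ), (∀ q : Fin s → ℚ, ∑ i, q i • t i ∈ F → q = 0) →
    LinearIndependent ℚ (fun i => (PQ L).mkQ (p i)) →
      ((4 + (s + 2 * n) : ℕ) : ℕ∞) ≤ (MK F).eRk (GenL L ∪ (ET t ∪ EP L p))

/-- a field as a rational space -/
def FQ (F : IntermediateField ℚ ℂ) : Submodule ℚ ℂ := Subalgebra.toSubmodule F.toSubalgebra

theorem mem_FQ {x : ℂ} : x ∈ FQ F ↔ x ∈ F := Iff.rfl

/-- the combinations of `2πi` and the exponents -/
def VT (t : Fin s → ℂ) : Submodule ℚ ℂ := P₁ ⊔ Submodule.span ℚ (Set.range t)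

instance (t : Fin s → ℂ) : FiniteDimensional ℚ (VT t) := by
  have : FiniteDimensional ℚ (Submodule.span ℚ (Set.range t)) :=
    FiniteDimensional.span_of_finite ℚ (Set.finite_range t)
  unfold VT
  infer_instance

/-- the numbers of a space and their exponentials -/
def XE (X : Submodule ℚ ℂ) : Set ℂ := (X : Set ℂ) ∪ Complex.exp '' (X : Set ℂ)

/-- the generators -/
def GA (L : PeriodPair) (t : Fin s → ℂ) (p : Fin n → ℂ) : Set ℂ :=
  GenL L ∪ (ET t ∪ EP L p)

theorem GA_finite (t : Fin s → ℂ) (p : Fin n → ℂ) : (GA L t p).Finite :=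
  GenL_finite.union (((Set.finite_range _).union (Set.finite_range _)).union (EP_finite p))

/-- derivations which kill the generators kill the combinations of the exponents -/
theorem kill_VT {δ : Derivation ℚ ℂ ℂ} (hG : ∀ x ∈ GenL L, δ x = 0) {t : Fin s → ℂ}
    (hT : ∀ x ∈ ET t, δ x = 0) {x : ℂ} (hx : x ∈ XE (VT t)) : δ x = 0 := by
  have h1 : ∀ v ∈ VT t, δ v = 0 ∧ lg δ v = 0 := by
    have hle : VT t ≤ LinearMap.ker (δ : ℂ →ₗ[ℚ] ℂ) ⊓ LinearMap.ker (lgL δ) := by
      refine sup_le ?_ ?_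
      · unfold P₁
        rw [Submodule.span_le]
        rintro _ rfl
        refine ⟨kill_tpi hG, ?_⟩
        change lg δ per = 0
        have : Complex.exp per = 1 := Complex.exp_two_pi_mul_I
        rw [lg, this, δ.map_one_eq_zero, zero_div]
      · rw [Submodule.span_le]
        rintro _ ⟨i, rfl⟩
        refine ⟨hT _ (Or.inl ⟨i, rfl⟩), ?_⟩
        change lg δ (t i) = 0
        have : δ (Complex.exp (t i)) = 0 := hT _ (Or.inr ⟨i, rfl⟩)
        rw [lg, this, zero_div]
    exact fun v hv => ⟨(hle hv).1, (hle hv).2⟩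
  rcases hx with hx | ⟨v, hv, rfl⟩
  · exact (h1 _ hx).1
  · have h2 := (h1 v hv).2
    rw [lg, div_eq_zero_iff] at h2
    exact h2.resolve_right (Complex.exp_ne_zero _)

theorem XE_mono {X Y : Submodule ℚ ℂ} (h : X ≤ Y) : XE X ⊆ XE Y := by
  rintro x (hx | ⟨v, hv, rfl⟩)
  · exact Or.inl (h hx)
  · exact Or.inr ⟨v, h hv, rfl⟩

theorem XE_sub (t : Fin s → ℂ) (p : Fin n → ℂ) : XE (VT t) ⊆ (MK E).closure (GA L t p) := by
  intro x hx
  rw [mem_cl_iff]
  intro δ _ hS
  exact kill_VT (fun x hx => hS x (Or.inl hx)) (fun x hx => hS x (Or.inr (Or.inl hx))) hx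

/-- points which are independent over the field of multiplications -/
theorem ind_of_k {p : Fin n → ℂ}
    (hp : LinearIndependent (kL L) (fun i => (P₂ L).mkQ (p i))) :
    LinearIndependent ℚ (fun i => (PQ L).mkQ (p i)) := by
  rw [indep_iff]
  intro q hq i
  rw [Fintype.linearIndependent_iff] at hp
  have h1 := hp (fun i => ((q i : ℚ) : kL L)) (by
    have h2 : ∑ i, ((q i : ℚ) : kL L) • (P₂ L).mkQ (p i) =
        (P₂ L).mkQ (∑ i, (q i : ℂ) * p i) := by
      rw [map_sum]
      refine Finset.sum_congr rfl (fun i _ => ?_)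
      rw [← map_smul]
      congr 1
    rw [h2]
    exact (Submodule.Quotient.mk_eq_zero _).2 (mem_PQ_iff'.1 hq)) i
  have h3 : (((q i : ℚ) : kL L) : ℂ) = 0 := by
    have := congrArg (fun x : kL L => (x : ℂ)) h1
    simpa using this
  push_cast at h3
  exact_mod_cast h3

/-- the span modulo a subspace -/
theorem finrank_mod {K : Type*} [Field K] [Module K ℂ] (A : Submodule K ℂ)
    [FiniteDimensional K A] {n : ℕ} (z : Fin n → ℂ) :
    finrank K (Submodule.span K (Set.range (fun i => A.mkQ (z i)))) + finrank K A =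
      finrank K (A ⊔ Submodule.span K (Set.range z) : Submodule K ℂ) := by
  have h0 : FiniteDimensional K (Submodule.span K (Set.range z)) :=
    FiniteDimensional.span_of_finite K (Set.finite_range z)
  set X := A ⊔ Submodule.span K (Set.range z) with hX
  have h1 := (A.mkQ ∘ₗ X.subtype).finrank_range_add_finrank_ker
  have h2 : LinearMap.range (A.mkQ ∘ₗ X.subtype) =
      Submodule.span K (Set.range (fun i => A.mkQ (z i))) := by
    rw [LinearMap.range_comp, Submodule.range_subtype, hX, Submodule.map_sup,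
      Submodule.mkQ_map_self, bot_sup_eq, Submodule.map_span, ← Set.range_comp]
    rfl
  have h3 : LinearMap.ker (A.mkQ ∘ₗ X.subtype) = A.comap X.subtype := by
    rw [LinearMap.ker_comp, Submodule.ker_mkQ]
  have h4 : finrank K (A.comap X.subtype) = finrank K A :=
    (Submodule.comapSubtypeEquivOfLe le_sup_left).finrank_eq
  rw [h2, h3, h4] at h1
  exact h1

/-- **All exponents, all points** -/
theorem rank_GA (hexp : ∀ x ∈ F, Complex.exp x ∈ F) (h : RkF F L) (hE : E ≤ F) (t : Fin s → ℂ)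
    (p : Fin n → ℂ) :
    (MK E).eRk (XE (VT t ⊓ FQ F)) +
      ((finrank ℚ (Submodule.span ℚ (Set.range (fun i => P₁.mkQ (t i)))) + 4 +
        2 * finrank (kL L) (Submodule.span (kL L) (Set.range (fun i => (P₂ L).mkQ (p i)))) + 1 : ℕ)
          : ℕ∞) ≤ (MK E).eRk (GA L t p) + ((finrank ℚ (VT t ⊓ FQ F : Submodule ℚ ℂ) : ℕ) : ℕ∞) := by
  classical
  -- exponents which are independent modulo the field
  obtain ⟨r, t', ht'V, ht'ind, ht'r⟩ := exists_z (VT t) (FQ F)
  have ht' : ∀ q : Fin r → ℚ, ∑ i, q i • t' i ∈ F → q = 0 := by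
    intro q hq
    funext i
    refine Fintype.linearIndependent_iff.1 ht'ind q ?_ i
    have h1 : ∑ i, q i • (FQ F).mkQ (t' i) = (FQ F).mkQ (∑ i, q i • t' i) := by
      rw [map_sum]
      exact Finset.sum_congr rfl (fun i _ => (map_smul _ _ _).symm)
    rw [h1]
    exact (Submodule.Quotient.mk_eq_zero _).2 hq
  -- independent points
  have hfd : Module.Finite (kL L) (Submodule.span (kL L)
      (Set.range (fun i => (P₂ L).mkQ (p i)))) :=
    Module.Finite.span_of_finite (kL L) (Set.finite_range _)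
  obtain ⟨m, σ, hm, hpk⟩ : ∃ (m : ℕ) (σ : Fin m → Fin n), finrank (kL L)
      (Submodule.span (kL L) (Set.range (fun i => (P₂ L).mkQ (p i)))) = m ∧
      LinearIndependent (kL L) (fun i => (P₂ L).mkQ (p (σ i))) := by
    obtain ⟨f, hf, hfs, hfi⟩ := Submodule.exists_fun_fin_finrank_span_eq (kL L)
      (Set.range (fun i => (P₂ L).mkQ (p i)))
    choose σ hσ using hf
    refine ⟨_, σ, rfl, ?_⟩
    have : (fun i => (P₂ L).mkQ (p (σ i))) = f := funext hσ
    rw [this]
    exact hfi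
  have hp' := ind_of_k hpk
  rw [hm]
  have hrk := h r m t' (fun i => p (σ i)) ht' hp'
  -- the part in the field
  have hXfin : (MK E).eRk (XE (VT t ⊓ FQ F)) ≤ (MK E).eRk (GA L t p) :=
    rk_le_of_subset_cl ((XE_mono inf_le_left).trans (XE_sub t p))
  have hGfin : (MK E).eRk (GA L t p) ≠ ⊤ :=
    ne_top_of_le_ne_top (Set.encard_ne_top_iff.2 (GA_finite t p)) ((MK E).eRk_le_encard _)
  obtain ⟨a, ha⟩ := ENat.ne_top_iff_exists.1 (ne_top_of_le_ne_top hGfin hXfin)
  obtain ⟨I, hIX, hI, hIc⟩ := Matroid.le_eRk_iff.1 ha.le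
  have hIfin : I.Finite := by
    rw [← Set.encard_ne_top_iff, hIc]
    exact ENat.natCast_ne_top a
  have : Fintype I := hIfin.fintype
  have hcard : Fintype.card I = a := by
    have h1 : I.encard = (Fintype.card I : ℕ∞) := by
      rw [Set.encard_eq_coe_toFinset_card, Set.toFinset_card]
    rw [h1] at hIc
    exact_mod_cast hIc
  let e : Fin a ≃ I := (finCongr hcard.symm).trans (Fintype.equivFin I).symm
  have hIind : AlgebraicIndependent E (fun i : I => (i : ℂ)) := hI
  have hx : AlgebraicIndependent E (fun i : Fin a => (e i : ℂ)) := hIind.comp e e.injective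
  have hxF : ∀ i : Fin a, (e i : ℂ) ∈ F := by
    intro i
    rcases hIX (e i).2 with hx | ⟨v, hv, hvx⟩
    · exact hx.2
    · rw [← hvx]
      exact hexp _ hv.2
  have h1 := rank_tower hE hx hxF hrk
  have h2 : (MK E).eRk (Set.range (fun i : Fin a => (e i : ℂ)) ∪
      (GenL L ∪ (ET t' ∪ EP L (fun i => p (σ i))))) ≤ (MK E).eRk (GA L t p) := by
    apply rk_le_of_subset_cl
    rintro x (⟨i, rfl⟩ | hx)
    · exact XE_sub t p (XE_mono inf_le_left (hIX (e i).2))
    · rw [mem_cl_iff]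
      intro δ _ hS
      have hG : ∀ x ∈ GenL L, δ x = 0 := fun x hx => hS x (Or.inl hx)
      have hT : ∀ x ∈ ET t, δ x = 0 := fun x hx => hS x (Or.inr (Or.inl hx))
      have hP : ∀ x ∈ EP L p, δ x = 0 := fun x hx => hS x (Or.inr (Or.inr hx))
      rcases hx with hx | (⟨i, rfl⟩ | ⟨i, rfl⟩) | ⟨i, rfl⟩ | ⟨i, rfl⟩ | ⟨i, rfl⟩
      · exact hG _ hx
      · exact kill_VT hG hT (Or.inl (ht'V i))
      · exact kill_VT hG hT (Or.inr ⟨_, ht'V i, rfl⟩)
      · exact hP _ (Or.inl ⟨σ i, rfl⟩)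
      · exact hP _ (Or.inr (Or.inl ⟨σ i, rfl⟩))
      · exact hP _ (Or.inr (Or.inr ⟨σ i, rfl⟩))
  have h3 := h1.trans h2
  rw [← ha]
  -- the dimension
  have hV : finrank ℚ (VT t) = 1 + finrank ℚ (Submodule.span ℚ (Set.range
      (fun i => P₁.mkQ (t i)))) := by
    obtain hfm := finrank_mod P₁ t
    rw [finrank_P₁] at hfm
    rw [VT, ← hfm, add_comm]
  obtain ⟨g, hg⟩ := ENat.ne_top_iff_exists.1 hGfin
  rw [← hg] at h3 ⊢
  norm_cast at h3 ⊢
  omega

end Pool.Agent.Y776
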