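import Mathlib
import Pool.Agent.Y776.FinC
import Pool.Agent.H297R2.ExpIndep

/-!
# Known cases of the inequality for exponents, and multiplications
-/

set_option autoImplicit false

open Filter Module
open scoped Topology PeriodPair

noncomputable section

namespace Pool.Agent.Y776

open H667R3 Pool.Agent.W245.EB Pool.Agent.Y685 Pool.Agent.TH813.Ell
open Pool.Agent.TH813.Rel (DF MK subset_cl rk_le_of_subset_cl mem_cl)

variable {n s : ℕ} {L : PeriodPair} {F E : IntermediateField ℚ ℂ}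

/-- algebraic independence and ranks -/
theorem rank_range {k : Type} [Field k] [Algebra k ℂ] {r : ℕ} {x : Fin r → ℂ}
    (h : AlgebraicIndependent k x) : (MK k).eRk (Set.range x) = (r : ℕ∞) := by
  have h2 : (MK k).Indep (Set.range x) := by
    rw [AlgebraicIndependent.matroid_indep_iff]
    exact AlgebraicIndependent.coe_range h
  rw [h2.eRk_eq_encard, ← Set.image_univ, h.injective.encard_image, Set.encard_univ,
    ENat.card_eq_coe_fintype_card, Fintype.card_fin]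

/-- the algebraic numbers -/
def Qb : Submodule ℚ ℂ := FQ (algebraicClosure ℚ ℂ)

theorem mem_Qb {x : ℂ} : x ∈ Qb ↔ IsAlgebraic ℚ x := mem_algebraicClosure_iff

/-- Lindemann and Weierstrass -/
theorem rank_LW {X : Submodule ℚ ℂ} [FiniteDimensional ℚ X] (hP : P₁ ≤ X) (hX : X ≤ P₁ ⊔ Qb) :
    ((finrank ℚ X : ℕ) : ℕ∞) ≤ (MK ℚ).eRk (XE X) + 1 := by
  classical
  have h1 : X = P₁ ⊔ (Qb ⊓ X) := by
    rw [← sup_inf_assoc_of_le Qb hP]
    exact (inf_eq_right.2 hX).symm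
  have hY : FiniteDimensional ℚ (Qb ⊓ X : Submodule ℚ ℂ) :=
    Submodule.finiteDimensional_of_le inf_le_right
  have h2 : finrank ℚ X ≤ 1 + finrank ℚ (Qb ⊓ X : Submodule ℚ ℂ) := by
    conv_lhs => rw [h1]
    refine (Submodule.finrank_add_le_finrank_add_finrank _ _).trans ?_
    rw [finrank_P₁]
  let b := finBasis ℚ (Qb ⊓ X : Submodule ℚ ℂ)
  have hb : LinearIndependent ℚ (fun i => (b i : ℂ)) :=
    b.linearIndependent.map' (Submodule.subtype _) (Submodule.ker_subtype _)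
  have hba : ∀ i, IsAlgebraic ℚ (b i : ℂ) := fun i => mem_Qb.1 (b i).2.1
  have h3 : AlgebraicIndependent (algebraicClosure ℚ ℂ) (fun i => Complex.exp (b i : ℂ)) := by
    rw [algebraicIndependent_iff]
    intro P hP
    exact Pool.Agent.H297R2.exp_noRel P.totalDegree _ hba hb P le_rfl hP
  have h4 : AlgebraicIndependent ℚ (fun i => Complex.exp (b i : ℂ)) :=
    h3.restrictScalars (algebraMap ℚ (algebraicClosure ℚ ℂ)).injective
  have h5 := rank_range h4
  have h6 : (MK ℚ).eRk (Set.range (fun i => Complex.exp (b i : ℂ))) ≤ (MK ℚ).eRk (XE X) := by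
    apply (MK ℚ).eRk_mono
    rintro _ ⟨i, rfl⟩
    exact Or.inr ⟨_, (b i).2.2, rfl⟩
  rw [h5] at h6
  have h7 : ((finrank ℚ X : ℕ) : ℕ∞) ≤ ((1 + finrank ℚ (Qb ⊓ X : Submodule ℚ ℂ) : ℕ) : ℕ∞) := by
    exact_mod_cast h2
  refine h7.trans ?_
  push_cast
  rw [add_comm]
  exact add_le_add h6 le_rfl

/-- the rank of a set which contains `2πi` -/
theorem one_le_rank {X : Set ℂ} (h : tpi ∈ X) : 1 ≤ (MK ℚ).eRk X := by
  rw [Order.one_le_iff_ne_zero]
  intro h0
  have h1 : X ⊆ (MK ℚ).closure ∅ := by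
    have := (Matroid.eRk_eq_zero_iff (M := MK ℚ) (X := X)).1 h0
    exact this
  have h2 := mem_cl.1 (h1 h)
  rw [Algebra.adjoin_empty] at h2
  have h3 : IsAlgebraic ℚ tpi := by
    have : Algebra.IsAlgebraic ℚ (⊥ : Subalgebra ℚ ℂ) := by
      refine ⟨fun x => ?_⟩
      obtain ⟨r, hr⟩ := Algebra.mem_bot.1 x.2
      have : x = algebraMap ℚ (⊥ : Subalgebra ℚ ℂ) r := Subtype.ext hr.symm
      rw [this]
      exact isAlgebraic_algebraMap r
    exact h2.restrictScalars ℚ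
  have h4 : IsAlgebraic ℚ (2 * Complex.I : ℂ) :=
    (isAlgebraic_natCast (R := ℚ) (A := ℂ) 2).mul Pool.Agent.H340R2.LW.isAlgebraic_I
  have h5 : (Real.pi : ℂ) = tpi * (2 * Complex.I)⁻¹ := by
    rw [tpi]
    have := Complex.I_ne_zero
    field_simp
  exact Pool.Agent.H340R2.LW.transcendental_pi_complex (by
    rw [h5]
    exact h3.mul h4.inv)

/-- the numbers of a lattice with a period `1` -/
theorem rank_norm (hL : L.ω₁ = 1) (t : Fin s → ℂ) (p : Fin 0 → ℂ) :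
    (MK ℚ).eRk (GA L t p) ≤ (MK ℚ).eRk ({tpi} ∪ ET t) + ((4 : ℕ) : ℕ∞) := by
  have h4 : ({L.g₂, L.g₃, L.ω₂, eta L L.ω₁} : Set ℂ).encard ≤ ((4 : ℕ) : ℕ∞) := by
    refine (Set.encard_insert_le _ _).trans ?_
    refine (add_le_add_left ((Set.encard_insert_le _ _).trans
      (add_le_add_left (pair_le _ _) 1)) 1).trans ?_
    norm_num
  refine le_trans ?_ (((MK ℚ).eRk_union_le_eRk_add_encard _
    {L.g₂, L.g₃, L.ω₂, eta L L.ω₁}).trans (add_le_add le_rfl h4))
  rw [← MK_FR ℚ]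
  apply rk_le_of_subset_cl
  intro x hx
  rw [mem_cl_iff]
  intro δ _ hS
  have hr : ∀ y ∈ ({L.g₂, L.g₃, L.ω₂, eta L L.ω₁} : Set ℂ), δ y = 0 :=
    fun y hy => hS y (Or.inr hy)
  have d2 : δ L.g₂ = 0 := hr _ (by left; rfl)
  have d3 : δ L.g₃ = 0 := hr _ (by right; left; rfl)
  have d4 : δ L.ω₂ = 0 := hr _ (by right; right; left; rfl)
  have d5 : δ (eta L L.ω₁) = 0 := hr _ (by right; right; right; rfl)
  have d1 : δ L.ω₁ = 0 := by rw [hL, δ.map_one_eq_zero]
  have dp : δ tpi = 0 := hS _ (Or.inl (Or.inl rfl))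
  have d6 : δ (eta L L.ω₂) = 0 := by
    obtain ⟨n', hn', h1⟩ := legendre L
    have h5 : δ (n' : ℂ) = 0 := δ.map_intCast n'
    have h2 : δ (n' * tpi) = 0 := by rw [D_mul, dp, h5]; ring
    unfold tpi at h2
    rw [← h1, map_sub, D_mul, D_mul, d1, d4, d5] at h2
    have h3 : L.ω₁ * δ (eta L L.ω₂) = 0 := by linear_combination h2
    exact (mul_eq_zero.1 h3).resolve_left (ω₁_ne_zero L)
  rcases hx with (rfl | rfl | rfl | rfl | rfl | rfl) | hx | ⟨i, -⟩ | ⟨i, -⟩ | ⟨i, -⟩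
  · exact d2
  · exact d3
  · exact d1
  · exact d4
  · exact d5
  · exact d6
  · exact hS _ (Or.inl (Or.inr hx))
  all_goals exact i.elim0

/-- there are no multiplications -/
theorem finrank_kL (halg : ∀ x, IsAlgebraic F x → x ∈ F) (hj : ∀ x ∈ F, L.ω₂ ≠ x * L.ω₁) :
    finrank ℚ (kL L) = 1 := by
  have h := finrank_P₂ L
  have h1 : finrank ℚ (kL L) ∣ 2 := ⟨_, h.symm⟩
  rcases (Nat.dvd_prime Nat.prime_two).1 h1 with h2 | h2
  · exact h2
  exfalso
  rw [h2] at h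
  have h3 : finrank (kL L) (P₂ L) = 1 := by omega
  have hne : (⟨L.ω₁, lattice_le_P₂ L.ω₁_mem_lattice⟩ : P₂ L) ≠ 0 := by
    intro h0
    exact ω₁_ne_zero L (congrArg Subtype.val h0)
  obtain ⟨c, hc⟩ := (finrank_eq_one_iff_of_nonzero' _ hne).1 h3
    ⟨L.ω₂, lattice_le_P₂ L.ω₂_mem_lattice⟩
  have hfd : FiniteDimensional ℚ (kL L) := Module.finite_of_finrank_pos (by omega)
  have hcalg : IsAlgebraic ℚ (c : ℂ) :=
    (Algebra.IsAlgebraic.isAlgebraic (R := ℚ) c).algebraMap (A := ℂ)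
  apply hj c (halg _ (hcalg.extendScalars (algebraMap ℚ F).injective))
  exact (congrArg Subtype.val hc).symm

end Pool.Agent.Y776
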