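import Mathlib
import Pool.Agent.TH813.EKPer

/-!
# The elliptico-toric conjecture: definitions
-/

set_option autoImplicit false

open Module
open scoped PeriodPair

namespace Pool.Agent.Y776.Et

/-- The Weierstrass zeta function `ζ(z) = ∑ (1/(z-l) + 1/l + z/l²)`, the sum over the lattice (the
summand of `l = 0` is `1/z`, since `1/0 = 0` in Lean). -/
noncomputable def ζ (L : PeriodPair) (z : ℂ) : ℂ :=
  ∑' l : L.lattice, (1 / (z - l) + 1 / l + z / l ^ 2)

/-- the field `k = ℚ ⊗ End(ℂ / Ω)` as a subfield of `ℂ`; see `mem_k` -/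
noncomputable abbrev k (L : PeriodPair) : IntermediateField ℚ ℂ := Pool.Agent.TH813.Ell.kL L

/-- `k` consists of the numbers `c` such that `n c` maps the lattice to itself for some `n > 0` -/
theorem mem_k {L : PeriodPair} {c : ℂ} :
    c ∈ k L ↔ ∃ n : ℕ, 0 < n ∧ ∀ w ∈ L.lattice, (n * c) * w ∈ L.lattice := Iff.rfl

/-- `2πi ℚ` -/
noncomputable def T₀ : Submodule ℚ ℂ := Submodule.span ℚ {2 * Real.pi * Complex.I}

/-- `Ω ⊗ ℚ` as a space over `k`; see `mem_P₀` -/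
noncomputable abbrev P₀ (L : PeriodPair) : Submodule (k L) ℂ := Pool.Agent.TH813.Ell.P₂ L

/-- `Ω ⊗ ℚ` consists of the numbers which have a multiple in the lattice -/
theorem mem_P₀ {L : PeriodPair} {x : ℂ} :
    x ∈ P₀ L ↔ ∃ n : ℕ, 0 < n ∧ (n : ℂ) * x ∈ L.lattice := Iff.rfl

/-- the invariant `j` of the curve `y² = 4 x³ - g₂ x - g₃` -/
noncomputable def jInv (L : PeriodPair) : ℂ :=
  1728 * L.g₂ ^ 3 / (L.g₂ ^ 3 - 27 * L.g₃ ^ 2)

/-- the transcendence degree over `K` of the field `K(S)` -/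
noncomputable def trd (K : Type) [Field K] [Algebra K ℂ] (S : Set ℂ) : Cardinal :=
  Algebra.trdeg K (IntermediateField.adjoin K S)

/-- generators of the field `K(ω₁, ω₂, η₁, η₂)`, with `ηᵢ = 2 ζ(ωᵢ / 2)` -/
noncomputable def gen (L : PeriodPair) {s n : ℕ} (t : Fin s → ℂ) (p : Fin n → ℂ) : Set ℂ :=
  ({L.g₂, L.g₃} ∪ {L.ω₁, L.ω₂, 2 * ζ L (L.ω₁ / 2), 2 * ζ L (L.ω₂ / 2)}) ∪
    ((Set.range t ∪ Complex.exp '' Set.range t) ∪
      (Set.range p ∪ (℘[L] '' Set.range p ∪ ζ L '' Set.range p)))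

/-- the dimension of the span of the classes of `z₁, …, zₙ` modulo `A` -/
noncomputable def dimMod {K : Type} [Field K] [Module K ℂ] (A : Submodule K ℂ) {n : ℕ}
    (z : Fin n → ℂ) : ℕ := finrank K (Submodule.span K (Set.range (fun i => A.mkQ (z i))))

/-- the inequality of the conjecture for `(t, p)` -/
def Holds (L : PeriodPair) {s n : ℕ} (t : Fin s → ℂ) (p : Fin n → ℂ) : Prop :=
  ((dimMod T₀ t + 4 / finrank ℚ (k L) + 2 * dimMod (P₀ L) p : ℕ) : Cardinal) ≤ trd ℚ (gen L t p)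

/-- the elliptico-toric conjecture for the curve `ℂ / Ω` -/
def Conjecture (L : PeriodPair) : Prop :=
  ∀ (s n : ℕ) (t : Fin s → ℂ) (p : Fin n → ℂ), (∀ i, p i ∉ L.lattice) → Holds L t p

/-- Schanuel's conjecture with defect one: `trdeg ℚ(2πi, t, e^t) ≥ dim ⟨t⟩`, where `⟨t⟩` is the
`ℚ`-span modulo `2πi ℚ` -/
def SchanuelOne : Prop :=
  ∀ (s : ℕ) (t : Fin s → ℂ), (dimMod T₀ t : Cardinal) ≤
    trd ℚ ({2 * Real.pi * Complex.I} ∪ (Set.range t ∪ Complex.exp '' Set.range t))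

/-- the rational linear combinations of `2πi, t₁, …, t_s` which lie in `F` -/
noncomputable def inF (F : IntermediateField ℚ ℂ) {s : ℕ} (t : Fin s → ℂ) : Submodule ℚ ℂ :=
  (T₀ ⊔ Submodule.span ℚ (Set.range t)) ⊓ Subalgebra.toSubmodule F.toSubalgebra

end Pool.Agent.Y776.Et
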