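import Mathlib
import Pool.Agent.Y776.FinD
import Pool.Agent.Y776.EtDefs

/-!
# The elliptico-toric conjecture: proofs
-/

set_option autoImplicit false

open Module
open scoped PeriodPair

namespace Pool.Agent.Y776.Et

section

open Pool.Agent.TH813.Ell Pool.Agent.TH813.Uni Pool.Agent.W669.Gel Pool.Agent.Y776
open Pool.Agent.Y685 H667R3 Pool.Agent.W245.EB
open Pool.Agent.TH813.Rel (MK toENat_trdeg le_iff)

variable {L : PeriodPair} {F : IntermediateField ℚ ℂ} {s n : ℕ}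

theorem gen_GA (t : Fin s → ℂ) {p : Fin n → ℂ} (hp : ∀ i, p i ∉ L.lattice) :
    gen L t p = GA L t p := by
  have e1 : 2 * ζ L (L.ω₁ / 2) = eta L L.ω₁ := (eta_half L.ω₁_mem_lattice (half₁ L)).symm
  have e2 : 2 * ζ L (L.ω₂ / 2) = eta L L.ω₂ := (eta_half L.ω₂_mem_lattice (half₂ L)).symm
  have e3 : ζ L '' Set.range p = Set.range (fun i => zt L (p i)) := by
    rw [← Set.range_comp]
    congr 1
    funext i
    exact (if_neg (hp i)).symm
  have e4 : ℘[L] '' Set.range p = Set.range (fun i => ℘[L] (p i)) := (Set.range_comp _ _).symm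
  have e5 : Complex.exp '' Set.range t = Set.range (fun i => Complex.exp (t i)) :=
    (Set.range_comp _ _).symm
  unfold gen GA GenL Y776.ET EP
  rw [e1, e2, e3, e4, e5]
  ext x
  simp only [Set.mem_union, Set.mem_insert_iff, Set.mem_singleton_iff]
  tauto

theorem trd_of_rank {K : Type} [Field K] [Algebra K ℂ] {S : Set ℂ} {a : ℕ}
    (h : (MK K).eRk S = (a : ℕ∞)) : trd K S = (a : Cardinal) := by
  have h1 := toENat_trdeg (k := K) S
  rw [h] at h1
  exact Cardinal.toENat_eq_natCast.1 h1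

theorem FR_le {K : Type} [Field K] [Algebra K ℂ] (hK : ∀ x : K, algebraMap K ℂ x ∈ F) :
    FR K ≤ F := by
  rintro _ ⟨x, rfl⟩
  exact hK x

theorem rank_gen {K : Type} [Field K] [Algebra K ℂ] (hK : ∀ x : K, algebraMap K ℂ x ∈ F)
    (hexp : ∀ x ∈ F, Complex.exp x ∈ F) (h : RkF F L) (t : Fin s → ℂ) {p : Fin n → ℂ}
    (hp : ∀ i, p i ∉ L.lattice) :
    (MK K).eRk ((inF F t : Set ℂ) ∪ Complex.exp '' (inF F t : Set ℂ)) +
      ((dimMod T₀ t + 4 + 2 * dimMod (P₀ L) p + 1 : ℕ) : ℕ∞) ≤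
        (MK K).eRk (gen L t p) + ((finrank ℚ (inF F t) : ℕ) : ℕ∞) := by
  rw [gen_GA t hp, ← MK_FR K]
  exact rank_GA hexp h (FR_le hK) t p

theorem gen_finite (t : Fin s → ℂ) (p : Fin n → ℂ) : (gen L t p).Finite := by
  unfold gen
  refine Set.Finite.union (Set.toFinite _) (Set.Finite.union (Set.Finite.union
    (Set.finite_range _) ((Set.finite_range _).image _)) (Set.Finite.union
    (Set.finite_range _) (Set.Finite.union ((Set.finite_range _).image _)
      ((Set.finite_range _).image _))))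

theorem rank_finite {K : Type} [Field K] [Algebra K ℂ] {S : Set ℂ} (hS : S.Finite) :
    ∃ g : ℕ, (MK K).eRk S = (g : ℕ∞) := by
  obtain ⟨g, hg⟩ := ENat.ne_top_iff_exists.1 (ne_top_of_le_ne_top
    (Set.encard_ne_top_iff.2 hS) ((MK K).eRk_le_encard S))
  exact ⟨g, hg.symm⟩

theorem four_le (d : ℕ) : 4 / d ≤ 4 := Nat.div_le_self 4 d

/-- the inequality over all base fields in `F` -/
theorem trd_gen {K : Type} [Field K] [Algebra K ℂ] (hK : ∀ x : K, algebraMap K ℂ x ∈ F)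
    (hexp : ∀ x ∈ F, Complex.exp x ∈ F) (h : RkF F L) (t : Fin s → ℂ) {p : Fin n → ℂ}
    (hp : ∀ i, p i ∉ L.lattice) :
    trd K ((inF F t : Set ℂ) ∪ Complex.exp '' (inF F t : Set ℂ)) +
      ((dimMod T₀ t + 4 / finrank ℚ (k L) + 2 * dimMod (P₀ L) p + 1 : ℕ) : Cardinal) ≤
        trd K (gen L t p) + ((finrank ℚ (inF F t) : ℕ) : Cardinal) := by
  have h1 := rank_gen hK hexp h t hp
  obtain ⟨g, hg⟩ := rank_finite (K := K) (gen_finite (L := L) t p)
  rw [hg] at h1
  have h2 : (MK K).eRk ((inF F t : Set ℂ) ∪ Complex.exp '' (inF F t : Set ℂ)) ≠ ⊤ := by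
    intro h0
    rw [h0, top_add, top_le_iff] at h1
    exact ENat.natCast_ne_top (g + finrank ℚ (inF F t)) (by push_cast; exact h1)
  obtain ⟨a, ha⟩ := ENat.ne_top_iff_exists.1 h2
  rw [← ha] at h1
  rw [trd_of_rank hg, trd_of_rank ha.symm]
  have h3 := four_le (finrank ℚ (k L))
  norm_cast at h1 ⊢
  omega

/-- the conjecture follows from the inequality of Schanuel with defect one -/
theorem holds_of (hexp : ∀ x ∈ F, Complex.exp x ∈ F) (h : RkF F L) (t : Fin s → ℂ)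
    {p : Fin n → ℂ} (hp : ∀ i, p i ∉ L.lattice)
    (hS : ((finrank ℚ (inF F t) : ℕ) : ℕ∞) ≤
      (MK ℚ).eRk ((inF F t : Set ℂ) ∪ Complex.exp '' (inF F t : Set ℂ)) + 1) :
    Holds L t p := by
  have h1 := rank_gen (K := ℚ) (fun x => F.algebraMap_mem x) hexp h t hp
  obtain ⟨g, hg⟩ := rank_finite (K := ℚ) (gen_finite (L := L) t p)
  rw [hg] at h1
  have h2 : (MK ℚ).eRk ((inF F t : Set ℂ) ∪ Complex.exp '' (inF F t : Set ℂ)) ≠ ⊤ := by
    intro h0
    rw [h0, top_add, top_le_iff] at h1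
    exact ENat.natCast_ne_top (g + finrank ℚ (inF F t)) (by push_cast; exact h1)
  obtain ⟨a, ha⟩ := ENat.ne_top_iff_exists.1 h2
  rw [← ha] at h1 hS
  unfold Holds
  rw [trd_of_rank hg]
  have h3 := four_le (finrank ℚ (k L))
  norm_cast at h1 hS ⊢
  omega

theorem T₀_le (hpi : 2 * Real.pi * Complex.I ∈ F) (t : Fin s → ℂ) : T₀ ≤ inF F t := by
  refine le_inf le_sup_left ?_
  unfold T₀
  rw [Submodule.span_le]
  rintro _ rfl
  exact hpi

instance (t : Fin s → ℂ) : FiniteDimensional ℚ (inF F t) := by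
  have h : inF F t ≤ VT t := inf_le_left
  exact Submodule.finiteDimensional_of_le h

theorem finrank_inF_le (t : Fin s → ℂ) : finrank ℚ (inF F t) ≤ 1 + s := by
  have h1 : finrank ℚ (inF F t) ≤ finrank ℚ (VT t) := Submodule.finrank_mono inf_le_left
  have h2 : FiniteDimensional ℚ (Submodule.span ℚ (Set.range t)) :=
    FiniteDimensional.span_of_finite ℚ (Set.finite_range t)
  refine h1.trans ((Submodule.finrank_add_le_finrank_add_finrank _ _).trans ?_)
  rw [finrank_P₁]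
  have h3 := finrank_range_le_card (R := ℚ) t
  rw [Fintype.card_fin] at h3
  have h4 : finrank ℚ (Submodule.span ℚ (Set.range t)) ≤ s := h3
  omega

theorem small (hpi : 2 * Real.pi * Complex.I ∈ F) (t : Fin s → ℂ)
    (h : finrank ℚ (inF F t) ≤ 2) : ((finrank ℚ (inF F t) : ℕ) : ℕ∞) ≤
      (MK ℚ).eRk ((inF F t : Set ℂ) ∪ Complex.exp '' (inF F t : Set ℂ)) + 1 := by
  have h1 : 1 ≤ (MK ℚ).eRk ((inF F t : Set ℂ) ∪ Complex.exp '' (inF F t : Set ℂ)) := by
    apply one_le_rank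
    exact Or.inl (T₀_le hpi t (Submodule.mem_span_singleton_self _))
  have h2 : ((finrank ℚ (inF F t) : ℕ) : ℕ∞) ≤ ((1 + 1 : ℕ) : ℕ∞) := by exact_mod_cast h
  refine h2.trans ?_
  push_cast
  exact add_le_add h1 le_rfl

theorem of_Schanuel (hpi : 2 * Real.pi * Complex.I ∈ F) (hS : SchanuelOne) (t : Fin s → ℂ) :
    ((finrank ℚ (inF F t) : ℕ) : ℕ∞) ≤
      (MK ℚ).eRk ((inF F t : Set ℂ) ∪ Complex.exp '' (inF F t : Set ℂ)) + 1 := by
  let b := finBasis ℚ (inF F t)
  have h1 := hS _ (fun i => (b i : ℂ))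
  have h2 : Submodule.span ℚ (Set.range (fun i => (b i : ℂ))) = inF F t := by
    have h3 : Set.range (fun i => (b i : ℂ)) = (inF F t).subtype '' Set.range b := by
      rw [← Set.range_comp]
      rfl
    rw [h3, Submodule.span_image, b.span_eq, Submodule.map_top, Submodule.range_subtype]
  have h3 : dimMod T₀ (fun i => (b i : ℂ)) + 1 = finrank ℚ (inF F t) := by
    have h4 := finrank_mod P₁ (fun i => (b i : ℂ))
    rw [finrank_P₁, h2] at h4
    have h5 : P₁ ⊔ inF F t = inF F t := sup_eq_right.2 (T₀_le hpi t)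
    rw [h5] at h4
    exact h4
  have h4 := (le_iff (k := ℚ) _ _).1 h1
  rw [← h3]
  push_cast
  refine add_le_add (h4.trans ((MK ℚ).eRk_mono ?_)) le_rfl
  rintro x (rfl | ⟨i, rfl⟩ | ⟨_, ⟨i, rfl⟩, rfl⟩)
  · exact Or.inl (T₀_le hpi t (Submodule.mem_span_singleton_self _))
  · exact Or.inl (b i).2
  · exact Or.inr ⟨_, (b i).2, rfl⟩

theorem Schanuel_of (hL : L.ω₁ = 1) (hk : finrank ℚ (k L) = 1)
    (h : ∀ (s : ℕ) (t : Fin s → ℂ), Holds L t ![]) : SchanuelOne := by
  intro s t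
  have h1 := h s t
  unfold Holds at h1
  rw [hk] at h1
  have h2 := (le_iff (k := ℚ) _ _).1 h1
  have hp : ∀ i : Fin 0, (![] : Fin 0 → ℂ) i ∉ L.lattice := fun i => i.elim0
  rw [gen_GA t hp] at h2
  have h3 := h2.trans (rank_norm hL t ![])
  have h4 : ({tpi} ∪ Y776.ET t : Set ℂ) =
      {2 * Real.pi * Complex.I} ∪ (Set.range t ∪ Complex.exp '' Set.range t) := by
    have e5 : Complex.exp '' Set.range t = Set.range (fun i => Complex.exp (t i)) :=
      (Set.range_comp _ _).symm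
    rw [e5]
    rfl
  rw [h4] at h3
  apply (le_iff (k := ℚ) _ _).2
  have hfin : ({2 * Real.pi * Complex.I} ∪ (Set.range t ∪ Complex.exp '' Set.range t) :
      Set ℂ).Finite := Set.Finite.union (Set.toFinite _) (Set.Finite.union
        (Set.finite_range _) ((Set.finite_range _).image _))
  obtain ⟨g, hg⟩ := rank_finite (K := ℚ) hfin
  rw [hg] at h3 ⊢
  norm_cast at h3 ⊢
  omega

end

open Pool.Agent.Y776 in
theorem main (S : Set ℂ) (hS : S.Countable) : ∃ F : IntermediateField ℚ ℂ,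
    (F : Set ℂ).Countable ∧ S ⊆ F ∧ (∀ x, IsAlgebraic F x → x ∈ F) ∧
    (∀ x ∈ F, Complex.exp x ∈ F) ∧
    ∀ L : PeriodPair, jInv L ∉ F →
      -- the inequality over all base fields in `F`, all tuples
      (∀ (K : Type) [Field K] [Algebra K ℂ], (∀ x : K, algebraMap K ℂ x ∈ F) →
        ∀ (s n : ℕ) (t : Fin s → ℂ) (p : Fin n → ℂ), (∀ i, p i ∉ L.lattice) →
        trd K ((inF F t : Set ℂ) ∪ Complex.exp '' (inF F t : Set ℂ)) +
          ((dimMod T₀ t + 4 / finrank ℚ (k L) + 2 * dimMod (P₀ L) p + 1 : ℕ) : Cardinal) ≤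
            trd K (gen L t p) + ((finrank ℚ (inF F t) : ℕ) : Cardinal)) ∧
      -- the conjecture for all `n` and `p`, and many `t`
      (∀ (s n : ℕ) (t : Fin s → ℂ) (p : Fin n → ℂ), (∀ i, p i ∉ L.lattice) →
        (s ≤ 1 ∨ (∀ i, IsAlgebraic ℚ (t i)) ∨ finrank ℚ (inF F t) ≤ 2) → Holds L t p) ∧
      -- the conjecture and Schanuel's conjecture
      (SchanuelOne → Conjecture L) ∧
      (L.ω₁ = 1 → (Conjecture L ↔ SchanuelOne)) := by
  obtain ⟨F, hFc, hSF, halg, hexp, hpi, hF⟩ := exists_F hS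
  refine ⟨F, hFc, hSF, halg, hexp, fun L hL => ?_⟩
  obtain ⟨hω, hR⟩ := hF L hL
  have hR' : RkF F L := hR
  have hSC : SchanuelOne → Conjecture L := fun hS s n t p hp =>
    holds_of hexp hR' t hp (of_Schanuel hpi hS t)
  refine ⟨fun K _ _ hK s n t p hp => trd_gen hK hexp hR' t hp, ?_, hSC, ?_⟩
  · rintro s n t p hp (hs | ht | hd)
    · exact holds_of hexp hR' t hp (small hpi t ((finrank_inF_le t).trans (by omega)))
    · refine holds_of hexp hR' t hp (rank_LW (T₀_le hpi t) ?_)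
      refine inf_le_left.trans (sup_le le_sup_left ?_)
      rw [Submodule.span_le]
      rintro _ ⟨i, rfl⟩
      exact Submodule.mem_sup_right (mem_Qb.2 (ht i))
    · exact holds_of hexp hR' t hp (small hpi t hd)
  · intro hL1
    refine ⟨fun hC => Schanuel_of hL1 (finrank_kL halg hω) (fun s t => ?_), hSC⟩
    exact hC s 0 t ![] (fun i => i.elim0)

end Pool.Agent.Y776.Et
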